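import Pool.Agent.H20PT.EisK
import Pool.Agent.H20S3.TRI
import Pool.Agent.H20S3.REC
import Pool.Agent.H20S3.LA
import Pool.Agent.H20S3.AWB
import Pool.Agent.H20S3.MK
import Pool.Agent.H20S3.MULT
import Pool.Agent.H20S3.AVG
import Pool.Agent.H20S3.SUM1
import Pool.Agent.H20S3.SUM2
import Pool.Agent.H20S3.LAPE
import Pool.Agent.H20S3.MAIN

/-!
# Cubic twists over `K = ℚ(ω)` of EVERY curve `E_D : y² + D y = x³` by random primes of `K`: finite
Mordell–Weil group, trivial `Ш[3^∞]` and nonzero `L`-value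

`K` is the field of the third roots of unity, and `D = 1` modulo `3` is ANY cube-free element of `𝓞 K` (no
condition on the number of the prime factors of `D`, on the rank of `E_D(K)`, on `Ш` or on the
`L`-function of `E_D`; the curves are in general not defined over `ℚ`). The primary primes are the primes
`π = 1` modulo `3` of `𝓞 K`, one generator of every prime ideal except the one above `3`; they are
ordered by the norm. `D'` is good if its norm is not `1` modulo `9`, `E_{D'}(K)` is finite,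
`Ш(E_{D'}/K)[3^∞] = 0` and `L(E_{D'}/K, 1) ≠ 0`.

* One prime, finitely many base curves at once: for a finite set `I` of pairs `(D, e)`, `e = 1` or `2`,
  the primary primes `π` such that all `D π^e` are good have among all primary primes the exact density
  `(c / 3) (μ / 3^|P|)`, with the numbers `c` and `μ` defined below, and lower bounds for them.
* Many primes: for every `D` and every list `e₁, …, e_k` of exponents `1` or `2` the proportion of the good
  `D' = D π₁^e₁ ⋯ π_k^e_k` (iterated mean over `π_k`, …, `π₁`) is exactly `(2/3) law(D, k)`, and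
  `|law(D, k) - C| ≤ (3/4) (3/5)^(k-1) (5/3)^n`, `n` the number of the primes that divide `D`,
  `C = ∏ (1 - 3^(-2i-1)) = 0.639...`. So in the twist family of EVERY curve `E_D` the good twists by `k`
  primes have, up to an exponentially small error, the same proportion `2 C / 3 = 0.426...`.

The criterion for one `D` and the value of the `L`-function are from the starting file
`MP_e996df_nt/ThreePartCubeFree` (helper419 and others), the density theorem of Chebotarev and the Galois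
extension generated by cube roots from the starting library (helpers 401 and 283); the linear algebra and
the Markov chain are from project H20S3 (helpers 45, 17, 33, 82, 5, 64).
-/

set_option autoImplicit false

open scoped Classical

namespace Pool.Agent.Results.MP_78d38b_nt.CubicTwistsEisenstein

open NumberField Filter Topology
open Pool.Agent.TH841.NF.D (Sha)

/-- The curve `E_D : y² + D y = x³`. -/
def curve {K : Type} [Field K] (D : K) : WeierstrassCurve K := ⟨0, 0, D, 0, 0⟩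

variable {K : Type} [Field K] [NumberField K]

/-- `E_D(K)` is finite and the `3`-primary part of `Ш(E_D / K)` is trivial. -/
def FiniteAndTrivial (D : 𝓞 K) : Prop :=
  Finite (curve (D : K)).toAffine.Point ∧ ∀ (n : ℕ) (x : Sha (curve (D : K))), 3 ^ n • x = 0 → x = 0

/-- The `L`-series of `E_D / K` has an entire continuation that is not zero at `1`. -/
def NonzeroL (D : 𝓞 K) : Prop :=
  ∃ Lf : ℂ → ℂ, Differentiable ℂ Lf ∧
    (∀ s : ℂ, 3 / 2 < s.re →
      LSeriesSummable ((fun n : ℤ => (n : ℂ)) ∘ (curve (D : K)).LFunction) s ∧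
        Lf s = (curve (D : K)).LSeries s) ∧ Lf 1 ≠ 0

/-- `p` is a prime that is `1` modulo `3`. -/
def Primary (p : 𝓞 K) : Prop := Prime p ∧ (3 : 𝓞 K) ∣ p - 1

/-- `D` is `1` modulo `3` and not divisible by the cube of a non-unit. -/
def PrimaryCubeFree (D : 𝓞 K) : Prop := (3 : 𝓞 K) ∣ D - 1 ∧ ∀ x : 𝓞 K, x ^ 3 ∣ D → IsUnit x

/-- The cubic residue symbol of `x` modulo `p`, in additive notation: the `c` with
`x ^ ((N p - 1) / 3) = ω ^ c` modulo `p`, and `0` if there is none. -/
noncomputable def symbol (ω p x : 𝓞 K) : ZMod 3 :=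
  if h : ∃ c : ZMod 3, p ∣ x ^ (((Algebra.norm ℤ p).natAbs - 1) / 3) - ω ^ c.val then h.choose else 0

/-- The set of the primary primes that divide `D` (it is finite for `D ≠ 0`). -/
noncomputable def divs (D : 𝓞 K) : Finset (𝓞 K) :=
  if h : {p : 𝓞 K | Primary p ∧ p ∣ D}.Finite then h.toFinset else ∅

/-- The Laplacian of the cubic residue symbols between the primary prime factors of `D`: outside the
diagonal the entry `(p, r)` is `v_r(D)` times the symbol of `r` modulo `p`, and all row sums are zero. -/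
noncomputable def lap (ω D : 𝓞 K) : Matrix (divs D) (divs D) (ZMod 3) :=
  Matrix.of fun p r => if (p : 𝓞 K) = r then
    - ∑ s ∈ (divs D).erase p, ((multiplicity s D : ℕ) : ZMod 3) * symbol ω p s
    else ((multiplicity (r : 𝓞 K) D : ℕ) : ZMod 3) * symbol ω p r

/-- The primary primes that divide a member of the family. -/
noncomputable def primesOf (I : Finset (𝓞 K × ℕ)) : Finset (𝓞 K) := I.biUnion fun i => divs i.1

/-- The number of the `t = 0, 1, 2` such that no `N(D) (1 + 3 t)^e` is `1` modulo `9`. -/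
noncomputable def classes (I : Finset (𝓞 K × ℕ)) : ℕ :=
  Nat.card {t : ZMod 3 // ∀ i ∈ I,
    ¬ (9 : ℤ) ∣ Algebra.norm ℤ i.1 * (1 + 3 * (t.val : ℤ)) ^ i.2 - 1}

/-- `u` extended by zero. -/
noncomputable def ext {P : Finset (𝓞 K)} (u : P → ZMod 3) (p : 𝓞 K) : ZMod 3 :=
  if h : p ∈ P then u ⟨p, h⟩ else 0

/-- The number `μ` of the vectors `u` such that all the matrices `lap D - e diag(u)` are
nonsingular. -/
noncomputable def μ (ω : 𝓞 K) (I : Finset (𝓞 K × ℕ)) : ℕ :=
  Nat.card {u : primesOf I → ZMod 3 // ∀ i ∈ I, (lap ω i.1 -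
    (i.2 : ZMod 3) • Matrix.diagonal (fun p : divs i.1 => ext u p)).det ≠ 0}

/-- `D` is good: its norm is not `1` modulo `9`, `E_D(K)` is finite, `Ш(E_D/K)[3^∞] = 0` and
`L(E_D/K, 1) ≠ 0`. -/
def Good (D : 𝓞 K) : Prop :=
  ¬ (9 : ℤ) ∣ Algebra.norm ℤ D - 1 ∧ FiniteAndTrivial D ∧ NonzeroL D

/-- The set `Q` has the density `δ` among the primary primes, ordered by the norm. -/
def HasDensity (Q : 𝓞 K → Prop) (δ : ℝ) : Prop :=
  Tendsto (fun X : ℕ => ({π : 𝓞 K | Primary π ∧ Algebra.norm ℤ π ≤ X ∧ Q π}.ncard : ℝ) /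
    ({π : 𝓞 K | Primary π ∧ Algebra.norm ℤ π ≤ X}.ncard : ℝ)) atTop (𝓝 δ)

/-- The iterated mean of `G` at `D π₁^e₁ ⋯ π_k^e_k`, for the exponents `[e₁, …, e_k]`: it is `G D` for
`k = 0`, and for `k ≥ 1` the limit for `X → ∞` of the mean, over all primary primes `π` of norm at most `X`,
of the iterated mean `g π` for `D π^e₁` and `[e₂, …, e_k]` (`g` is arbitrary at the finitely many
`π ∣ D`). -/
def IteratedMean (G : 𝓞 K → ℝ) : List ℕ → 𝓞 K → ℝ → Prop
  | [], D, m => m = G D
  | e :: es, D, m => ∃ g : 𝓞 K → ℝ,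
      (∀ π, Primary π → ¬ π ∣ D → IteratedMean G es (D * π ^ e) (g π)) ∧
      Tendsto (fun X : ℕ => (∑ᶠ π ∈ {π : 𝓞 K | Primary π ∧ Algebra.norm ℤ π ≤ X}, g π) /
        ({π : 𝓞 K | Primary π ∧ Algebra.norm ℤ π ≤ X}.ncard : ℝ)) atTop (𝓝 m)

/-- The dimension of the kernel. -/
noncomputable def corank {ι : Type} [Fintype ι] (M : Matrix ι ι (ZMod 3)) : ℕ :=
  Module.finrank (ZMod 3) (LinearMap.ker M.mulVecLin)

/-- One step of the Markov chain: the mean of `f` at `s - 1`, `s`, `s + 1` with the weights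
`1 - 3^(-s)`, `2 · 3^(-s-1)`, `3^(-s-1)`. -/
noncomputable def step (f : ℕ → ℝ) (s : ℕ) : ℝ :=
  (1 - (1 / 3 : ℝ) ^ s) * f (s - 1) + 2 * (1 / 3 : ℝ) ^ (s + 1) * f s +
    (1 / 3 : ℝ) ^ (s + 1) * f (s + 1)

/-- The probability that the chain is at `0` after `k ≥ 1` primes: start with the law of the dimension
of the kernel of `lap D - diag u`, `u` uniformly distributed, and make `k - 1` steps. -/
noncomputable def law (ω D : 𝓞 K) (k : ℕ) : ℝ :=
  (∑ u : divs D → ZMod 3, (step^[k - 1] fun n => if n = 0 then 1 else 0)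
    (corank (lap ω D - Matrix.diagonal u))) / 3 ^ (divs D).card

/-- `∏_{i ≥ 0} (1 - 3^{-(2 i + 1)})`. -/
noncomputable def C : ℝ := ∏' i : ℕ, (1 - (1 / 3 : ℝ) ^ (2 * i + 1))

section pf

open Pool.Agent.H20PT (FF.Ns)
open Pool.Agent.H20PT.Eis
open Pool.Agent.Y692.QS (Ei nr)
open Pool.Agent.Y715.T.Rec (cs)
open Pool.Agent.Y715.T.RecG (Pq)
open Pool.Agent.Y699.E (PD mem_PD)

theorem divs_eq (D : 𝓞 K) : divs D = Pool.Agent.H20PT.Eis.divs D := rfl

theorem lap_eq (ω D : 𝓞 K) (e : ZMod 3) (f : 𝓞 K → ZMod 3) :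
    (lap ω D - e • Matrix.diagonal (fun p : divs D => f p)).det ≠ 0 ↔
      Pool.Agent.H20PT.FF.Ns (divs D) (AK ω D) (fun p => -e * f p) := by
  rw [Pool.Agent.H20PT.FF.Ns_map (Subtype.val : divs D → 𝓞 K) Subtype.val_injective
    (Finset.univ : Finset (divs D)) (divs D) (fun a => by simp), Pool.Agent.H20PT.FF.Ns_iff_det]
  have h4 : lap ω D - e • Matrix.diagonal (fun p : divs D => f p) =
      Matrix.of (fun p r : divs D => AK ω D p r) +
        Matrix.diagonal (fun p : divs D => -e * f p) := by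
    ext p r
    have h5 : AK ω D p r = lap ω D p r := rfl
    rw [Matrix.sub_apply, Matrix.add_apply, Matrix.smul_apply, Matrix.of_apply, h5,
      Matrix.diagonal_apply, Matrix.diagonal_apply, smul_eq_mul]
    split_ifs <;> ring
  rw [h4]

variable {j : Ei ≃+* 𝓞 K}

/-- the criterion in terms of the Eisenstein integers -/
theorem good_iff [IsCyclotomicExtension {3} ℚ K] (hj : ∀ z : Ei, Algebra.norm ℤ (j z) = nr z)
    {D : Ei} (hD : Bs D) {e : ℕ} (he : e = 1 ∨ e = 2) {π : Ei} (hπ : Pq π) (hd : ¬ π ∣ D) :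
    Good (j D * j π ^ e) ↔ ¬ (9 : ℤ) ∣ nr (D * π ^ e) - 1 ∧
      Pool.Agent.H20PT.FF.Ns (PD D) (AE (mz D) (PD D)) (fun p => -(e : ZMod 3) * cs p π) := by
  unfold Good
  rw [← map_pow, ← map_mul, hj]
  refine and_congr_right fun h9 => ?_
  have h1 := tri_crit (j := j) hD he hπ hd h9
  have h2 : FiniteAndTrivial (j (D * π ^ e)) ↔ Pool.Agent.Y696.CTK.Tri (j (D * π ^ e)) := Iff.rfl
  rw [h2, ← h1]
  constructor
  · exact fun h => h.1
  · intro h
    refine ⟨h, ?_⟩
    have h3 := ((Pool.Agent.R419.KF.final3 K).2.1 _ (cls_mul hj hD he hπ hd h9)).1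
    obtain ⟨-, -, Lf, c, k1, k2, k3, -⟩ := h3
    exact ⟨Lf, k1, k2, k3 h⟩

/-- counting on `𝓞 K` and on the Eisenstein integers -/
theorem ncard_NT (hj : ∀ z : Ei, Algebra.norm ℤ (j z) = nr z) (Q : 𝓞 K → Prop) (X : ℕ) :
    {π : 𝓞 K | Primary π ∧ Algebra.norm ℤ π ≤ X ∧ Q π}.ncard = Q283.TC.NT (fun π => Q (j π)) X := by
  unfold Q283.TC.NT
  rw [← Set.ncard_image_of_injective _ j.injective]
  congr 1
  ext π
  rw [Set.mem_image]
  constructor
  · rintro ⟨a, b, c⟩
    obtain ⟨z, rfl⟩ := j.surjective π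
    exact ⟨z, ⟨primary_j.1 a, by rw [← hj]; exact b, c⟩, rfl⟩
  · rintro ⟨z, ⟨a, b, c⟩, rfl⟩
    exact ⟨primary_j.2 a, by rw [hj]; exact b, c⟩

/-- the family on the Eisenstein integers -/
noncomputable def I' (j : Ei ≃+* 𝓞 K) (I : Finset (𝓞 K × ℕ)) : Finset (Ei × ℕ) :=
  I.image fun i => (j.symm i.1, i.2)

/-- its primes -/
noncomputable def P' (j : Ei ≃+* 𝓞 K) (I : Finset (𝓞 K × ℕ)) : Finset Ei :=
  (primesOf I).image j.symm

theorem forall_I' {I : Finset (𝓞 K × ℕ)} {Q : Ei × ℕ → Prop} :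
    (∀ i ∈ I' j I, Q i) ↔ ∀ i ∈ I, Q (j.symm i.1, i.2) := by
  unfold I'
  rw [Finset.forall_mem_image]

theorem base_symm {I : Finset (𝓞 K × ℕ)} (hI : ∀ i ∈ I, PrimaryCubeFree i.1 ∧ (i.2 = 1 ∨ i.2 = 2)) :
    ∀ i ∈ I, Bs (j.symm i.1) := by
  intro i hi
  have h1 : BaseK (j (j.symm i.1)) := by
    rw [RingEquiv.apply_symm_apply]
    exact (hI i hi).1
  exact base_j.1 h1

theorem mem_divs {I : Finset (𝓞 K × ℕ)} (hI : ∀ i ∈ I, PrimaryCubeFree i.1 ∧ (i.2 = 1 ∨ i.2 = 2))
    {i : 𝓞 K × ℕ} (hi : i ∈ I) (q : Ei) : j q ∈ divs i.1 ↔ q ∈ PD (j.symm i.1) := by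
  have h1 := mem_divs_j (j := j) (base_symm (j := j) hI i hi).ne (j q)
  rw [RingEquiv.apply_symm_apply] at h1
  rw [divs_eq, h1]
  constructor
  · rintro ⟨r, hr, hrq⟩
    rw [← j.injective hrq]
    exact hr
  · intro h
    exact ⟨q, h, rfl⟩

theorem fam' {I : Finset (𝓞 K × ℕ)} (hI : ∀ i ∈ I, PrimaryCubeFree i.1 ∧ (i.2 = 1 ∨ i.2 = 2)) :
    Fam (P' j I) (I' j I) := by
  refine ⟨?_, ?_, ?_, ?_⟩
  · rw [forall_I']
    exact base_symm hI
  · rw [forall_I']
    exact fun i hi => (hI i hi).2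
  · rw [forall_I']
    intro i hi q hq
    unfold P' primesOf
    rw [Finset.mem_image]
    exact ⟨j q, Finset.mem_biUnion.2 ⟨i, hi, (mem_divs hI hi q).2 hq⟩, j.symm_apply_apply q⟩
  · intro p hp
    unfold P' primesOf at hp
    rw [Finset.mem_image] at hp
    obtain ⟨r, hr, rfl⟩ := hp
    rw [Finset.mem_biUnion] at hr
    obtain ⟨i, hi, hr⟩ := hr
    have h1 : j (j.symm r) ∈ divs i.1 := by
      rw [RingEquiv.apply_symm_apply]
      exact hr
    exact ((mem_PD (base_symm hI i hi).ne).1 ((mem_divs hI hi _).1 h1)).1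

theorem classes_eq (hj : ∀ z : Ei, Algebra.norm ℤ (j z) = nr z) (I : Finset (𝓞 K × ℕ)) :
    classes I = cls (I' j I) := by
  unfold classes cls
  refine Nat.card_congr (Equiv.subtypeEquivRight fun t => ?_)
  rw [forall_I']
  refine forall₂_congr fun i _ => ?_
  rw [← hj, RingEquiv.apply_symm_apply]

/-- the primes correspond -/
noncomputable def sig (j : Ei ≃+* 𝓞 K) (I : Finset (𝓞 K × ℕ)) : primesOf I ≃ P' j I where
  toFun p := ⟨j.symm p, Finset.mem_image_of_mem _ p.2⟩
  invFun q := ⟨j q, by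
    obtain ⟨r, hr, h⟩ := Finset.mem_image.1 q.2
    rw [← h, RingEquiv.apply_symm_apply]
    exact hr⟩
  left_inv p := Subtype.ext (j.apply_symm_apply p)
  right_inv q := Subtype.ext (j.symm_apply_apply q)

theorem μ_eq {ω : 𝓞 K} (hj : ∀ z : Ei, Algebra.norm ℤ (j z) = nr z)
    (hw : j Pool.Agent.Y692.QS.w = ω) {I : Finset (𝓞 K × ℕ)}
    (hI : ∀ i ∈ I, PrimaryCubeFree i.1 ∧ (i.2 = 1 ∨ i.2 = 2)) : μ ω I = num (P' j I) (I' j I) := by
  have hF := fam' (j := j) hI
  unfold μ num
  rw [← Fintype.card_subtype, ← Nat.card_eq_fintype_card]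
  refine Nat.card_congr ((Equiv.arrowCongr (sig j I) (Equiv.refl (ZMod 3))).subtypeEquiv fun u => ?_)
  rw [forall_I']
  refine forall₂_congr fun i hi => ?_
  have h1 := lap_eq ω i.1 (i.2 : ZMod 3) (ext u)
  rw [h1, divs_eq]
  have hD := (base_symm (j := j) hI i hi).ne
  have h2 := Ns_j hj hw hD (fun p => -(i.2 : ZMod 3) * ext u p)
  rw [RingEquiv.apply_symm_apply] at h2
  rw [h2]
  have h3 : ∀ q ∈ PD (j.symm i.1), -(i.2 : ZMod 3) * ext u (j q) = -(i.2 : ZMod 3) *
      Pool.Agent.H20PT.FF.ex ((Equiv.arrowCongr (sig j I) (Equiv.refl (ZMod 3))) u) q := by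
    intro q hq
    have hq' : q ∈ P' j I := hF.sub (j.symm i.1, i.2) (Finset.mem_image_of_mem _ hi) hq
    have hq2 : j q ∈ primesOf I := Finset.mem_biUnion.2 ⟨i, hi, (mem_divs hI hi q).2 hq⟩
    unfold ext Pool.Agent.H20PT.FF.ex
    rw [dif_pos hq', dif_pos hq2]
    rfl
  exact ⟨fun h => h.congr h3, fun h => h.congr fun q hq => (h3 q hq).symm⟩

theorem prod_eq {I : Finset (𝓞 K × ℕ)}
    (hI : ∀ i ∈ I, PrimaryCubeFree i.1 ∧ (i.2 = 1 ∨ i.2 = 2)) :
    ∏ p ∈ primesOf I, (3 - (I.filter fun i => p ∣ i.1).card) =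
      ∏ q ∈ P' j I, (3 - ((I' j I).filter fun i => q ∈ PD i.1).card) := by
  have hF := fam' (j := j) hI
  unfold P'
  rw [Finset.prod_image (fun a _ b _ h => j.symm.injective h)]
  refine Finset.prod_congr rfl fun p hp => ?_
  congr 1
  unfold I'
  rw [Finset.filter_image, Finset.card_image_of_injective _ (fun a b h => by
    rw [Prod.mk.injEq] at h
    exact Prod.ext (j.symm.injective h.1) h.2)]
  congr 1
  refine Finset.filter_congr fun i hi => ?_
  simp only
  have hpq : Pq (j.symm p) := hF.pr _ (Finset.mem_image_of_mem _ hp)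
  rw [mem_PD (base_symm hI i hi).ne]
  constructor
  · intro h
    exact ⟨hpq, map_dvd j.symm h⟩
  · rintro ⟨-, h⟩
    have := map_dvd j h
    rwa [RingEquiv.apply_symm_apply, RingEquiv.apply_symm_apply] at this

omit [NumberField K] in
theorem im_iff (G : 𝓞 K → ℝ) (es : List ℕ) (D : 𝓞 K) (m : ℝ) :
    Pool.Agent.H20S3.IMK G es D m ↔ IteratedMean G es D m := by
  induction es generalizing D m with
  | nil => exact Iff.rfl
  | cons e es ih =>
    unfold Pool.Agent.H20S3.IMK IteratedMean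
    refine exists_congr fun g => and_congr ?_ Iff.rfl
    exact forall_congr' fun π => forall_congr' fun _ => forall_congr' fun _ => ih _ _

end pf

/-- **Cubic twists of every curve `E_D` over `ℚ(ω)` by primes of `ℚ(ω)`.** -/
theorem result (K : Type) [Field K] [NumberField K] [IsCyclotomicExtension {3} ℚ K] (ω : 𝓞 K)
    (hω : ω ^ 2 + ω + 1 = 0) :
    -- one prime, finitely many base curves at once: the exact density and lower bounds
    (∀ I : Finset (𝓞 K × ℕ), (∀ i ∈ I, PrimaryCubeFree i.1 ∧ (i.2 = 1 ∨ i.2 = 2)) →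
      HasDensity (fun π => ∀ i ∈ I, Good (i.1 * π ^ i.2))
        ((classes I : ℝ) / 3 * ((μ ω I : ℝ) / 3 ^ (primesOf I).card)) ∧
      ∏ p ∈ primesOf I, (3 - (I.filter fun i => p ∣ i.1).card) ≤ μ ω I ∧
      (I.card = 1 → classes I = 2) ∧ (I.card = 2 → 1 ≤ classes I) ∧
      -- the criterion for one primary prime
      (∀ i ∈ I, ∀ π : 𝓞 K, Primary π → ¬ π ∣ i.1 → (Good (i.1 * π ^ i.2) ↔
        (¬ (9 : ℤ) ∣ Algebra.norm ℤ (i.1 * π ^ i.2) - 1 ∧
          (lap ω i.1 - (i.2 : ZMod 3) •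
            Matrix.diagonal (fun p : divs i.1 => symbol ω p π)).det ≠ 0)))) ∧
    -- many primes: the exact proportion, and exponential convergence to a universal constant
    (∀ D : 𝓞 K, PrimaryCubeFree D →
      (∀ es : List ℕ, es ≠ [] → (∀ e ∈ es, e = 1 ∨ e = 2) →
        IteratedMean (fun D' => if Good D' then 1 else 0) es D (2 / 3 * law ω D es.length)) ∧
      ∀ k : ℕ, 1 ≤ k →
        |law ω D k - C| ≤ 3 / 4 * (3 / 5 : ℝ) ^ (k - 1) * (5 / 3) ^ (divs D).card) ∧
    0.639 < C ∧ C < 0.6391 := by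
  refine ⟨fun I hI => ?_, fun D hD => ⟨fun es hes he => ?_, fun k hk => ?_⟩, ?_⟩
  · obtain ⟨j, hj, hw⟩ := Pool.Agent.H20PT.Eis.exists_iso hω
    have hF := fam' (j := j) hI
    have hcard : (I' j I).card = I.card := Finset.card_image_of_injective _ fun a b h => by
      rw [Prod.mk.injEq] at h
      exact Prod.ext (j.symm.injective h.1) h.2
    have hb : ∀ i ∈ I' j I, Pool.Agent.H20PT.Eis.Bs i.1 ∧ (i.2 = 1 ∨ i.2 = 2) := fun i hi =>
      ⟨hF.base i hi, hF.exp i hi⟩
    refine ⟨?_, ?_, ?_, ?_, ?_⟩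
    · have h1 := Pool.Agent.H20PT.Eis.dens_fam Pool.Agent.Y333.CX.t_LAM hF
        (fun i π => Good (j i.1 * j π ^ i.2))
        (fun i hi π hπ hd => good_iff hj (hF.base i hi) (hF.exp i hi) hπ hd)
      rw [← classes_eq hj, ← μ_eq hj hw hI] at h1
      have hP : (P' j I).card = (primesOf I).card :=
        Finset.card_image_of_injective _ j.symm.injective
      rw [hP] at h1
      unfold HasDensity
      refine h1.congr fun X => ?_
      have h2 := ncard_NT hj (fun π => ∀ i ∈ I, Good (i.1 * π ^ i.2)) X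
      have h3 := ncard_NT hj (fun _ => True) X
      simp only [and_true] at h3
      rw [h2, h3]
      congr 3
      funext π
      rw [forall_I']
      refine propext (forall₂_congr fun i _ => ?_)
      rw [RingEquiv.apply_symm_apply]
    · rw [prod_eq (j := j) hI, μ_eq hj hw hI]
      exact Pool.Agent.H20PT.Eis.num_ge hF
    · intro h1
      rw [classes_eq hj]
      rw [← hcard] at h1
      obtain ⟨⟨D, e⟩, h2⟩ := Finset.card_eq_one.1 h1
      rw [h2] at hb ⊢
      have h3 := hb (D, e) (Finset.mem_singleton_self _)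
      exact Pool.Agent.H20PT.Eis.cls_one h3.1 h3.2
    · intro h2
      rw [classes_eq hj]
      have h3 := Pool.Agent.H20PT.Eis.cls_ge hb
      omega
    · intro i hi π hπ hd
      obtain ⟨z, rfl⟩ := j.surjective π
      have hz : Pool.Agent.Y715.T.RecG.Pq z := Pool.Agent.H20PT.Eis.primary_j.1 hπ
      have hB := base_symm (j := j) hI i hi
      have hd' : ¬ z ∣ j.symm i.1 := by
        intro h
        apply hd
        have := map_dvd j h
        rwa [RingEquiv.apply_symm_apply] at this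
      have h1 := good_iff hj hB (hI i hi).2 hz hd'
      rw [RingEquiv.apply_symm_apply] at h1
      rw [h1, lap_eq ω i.1 (i.2 : ZMod 3) (fun p => symbol ω p (j z)), divs_eq]
      have h2 := Pool.Agent.H20PT.Eis.Ns_j hj hw hB.ne
        (fun p => -(i.2 : ZMod 3) * symbol ω p (j z))
      rw [RingEquiv.apply_symm_apply] at h2
      rw [h2]
      have h3 : Algebra.norm ℤ (i.1 * j z ^ i.2) =
          Pool.Agent.Y692.QS.nr (j.symm i.1 * z ^ i.2) := by
        rw [← hj]
        congr 1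
        rw [map_mul j, map_pow j, RingEquiv.apply_symm_apply]
      rw [h3]
      refine and_congr_right fun _ => ?_
      have h4 : ∀ q : Pool.Agent.Y692.QS.Ei,
          symbol ω (j q) (j z) = Pool.Agent.Y715.T.Rec.cs q z := fun q =>
        Pool.Agent.H20PT.Eis.symbol_j hj hw q z
      simp only [h4]
  · have hM := Pool.Agent.H20S3.MAIN.t Pool.Agent.H20S3.MULT.t Pool.Agent.H20S3.AVG.t
      Pool.Agent.H20S3.SUM1.t (Pool.Agent.H20S3.SUM2.t
        (Pool.Agent.H20S3.REC.t Pool.Agent.H20S3.LA.t))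
    exact (im_iff _ _ _ _).1 (Pool.Agent.H20S3.fin4 hω hM Pool.Agent.H20S3.LAPE.t Good
      (fun D => Iff.rfl) D hD es hes he)
  · have h := Pool.Agent.H20S3.fin3 hω Pool.Agent.H20S3.LAPE.t Pool.Agent.H20S3.MK.t
      Pool.Agent.H20S3.AWB.t D hD 0 (k - 1)
    have h0 : Pool.Agent.Y703.XL.cr 0 = C := by
      unfold Pool.Agent.Y703.XL.cr C
      rw [Finset.prod_range_zero, div_one]
      rfl
    rw [h0] at h
    exact h
  · exact (Pool.Agent.R419.KF.final3 K).2.2.2

end Pool.Agent.Results.MP_78d38b_nt.CubicTwistsEisenstein
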