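import Pool.Agent.H18N.Ec
import Pool.Agent.H18N.All
import Pool.Agent.H18N.CLSX

/-!
# Near every elliptic curve over a number field: the rank and the 2-torsion of the Tate-Shafarevich group,
# over infinitely many extensions at once

Let `F` be any number field. Every elliptic curve over `F` has an equation `y² = x³ + a x + b` with
integers `a`, `b` of `F`. Here only the minimal pairs are considered, those for which there is no
prime `𝔭` with `𝔭⁴ ∣ a` and `𝔭⁶ ∣ b`. The constants of Poonen and Rains are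
`C_{2,k} = ∏_{j ≥ 0} (1 + 2^{-j})^{-1} ∏_{1 ≤ i ≤ k} 2 / (2^i - 1)`, so `C_{2,0} = 0.2097…`,
`C_{2,1} = 0.4194…`, `C_{2,2} = 0.2796…`, `C_{2,3} = 0.0799…`.

**Theorem.** Let `(a₀, b₀)` be ANY elliptic curve over `F`, `n ≥ 1` and `ε > 0`. There is a family of
elliptic curves over `F`, given by congruences for `a` and `b` modulo some `N` which imply
`a = a₀`, `b = b₀` modulo `n`, and by the condition that `4 a³ + 27 b²` is not divisible by the square of a
prime which does not divide `N`, which contains a positive proportion of all elliptic curves over `F`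
(ordered by `max_σ max (|σ a|³, |σ b|²)`), such that, if a finite extension `M` of `F` is called admissible
for `E` when it is Galois of 2-power degree, the primes over `N` and the real places of `F` split
completely in `M` and `x³ + a x + b` has no root modulo the primes of `F` which are ramified in `M`
(for instance `M = F`):

* for every member `E` of the family there are infinitely many prime numbers `l` such that `M(√l)` is
  admissible for every admissible `M`;
* for all large heights `X`, among the members of the family of height at most `X`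
  (1) for every `k` the proportion of those for which `Ш(E / M)[2]` is finite and
  `rank E(M) + dim Ш(E / M)[2] ≤ k [M : F]` for EVERY admissible `M` is at least
  `C_{2,0} + … + C_{2,k} - ε`;
  (2) the proportion of those for which `E(M)` is finite of odd order and `Ш(E / M)[2^∞] = 0` for EVERY
  admissible `M` is at least `C_{2,0} - ε`.

So every nonempty open set of elliptic curves in the sense of congruences, however bad the reduction at
the given primes is, contains a positive proportion of all curves for which the 2-primary part of the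
Tate-Shafarevich group is finite (zero); for `M = F` this says that `rank E(F) + dim Ш(E / F)[2] ≤ k` with
probability at least `C_{2,0} + … + C_{2,k} - ε`, which is `0.6291…`, `0.9087…`, `0.9886…` for
`k = 1, 2, 3`, up to `ε`.

Idea of the proof (project JN). The discriminant of a base curve in the given residue class is squarefree
outside a modulus `W`. In the group of the classes in `L* / L*²` of square norm, `L = F(θ)`, with even
valuations outside `W` and outside a large set `S` of primes (`q = 1` modulo `W`), the relaxed Selmer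
groups of the twists by products of primes in `S` satisfy all local conditions outside `W`; the classes
which are squares over the completions at the primes over `W` and at the real places are orthogonal to all
classes of this group (reciprocity), and there are so many of them (a count with the units, the class
group and the local fields) that the group generated by the relaxed Selmer group of every twist lies in
a maximal isotropic subgroup for the quadratic form of Poonen and Rains at `S`, for which the law of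
project PR holds for most base curves (geometry of numbers and large sieve for the pairs of quadratic
forms). The twisting factors are squares at the primes over `W`, so this bounds the Selmer groups of the
twists. The step to all admissible `M` is as in `UniformRankShaLaw`.
-/

set_option autoImplicit false

namespace Pool.Agent.Results.MP_78d38b_nt.NearEveryCurve

open NumberField IsDedekindDomain
open Pool.Agent.TH115.GD (Pt act rs IsCoc LocTriv Comp Sep)
open scoped Classical IntermediateField Pointwise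

section sha

variable {M : Type} [Field M] [NumberField M]

/-- The maps of the absolute Galois group of `M` to the points of `W` over a separable closure. -/
def Cochain (W : WeierstrassCurve M) : Type := (Sep M ≃ₐ[M] Sep M) → Pt W (Sep M)

noncomputable instance cochainGroup (W : WeierstrassCurve M) : AddCommGroup (Cochain W) :=
  Pi.addCommGroup

/-- The cochain `f` becomes a coboundary over the completion of `M` at every prime and over `ℝ` for
every embedding of `M` in `ℝ`. -/
structure Locally (W : WeierstrassCurve M) (f : Cochain W) : Prop where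
  finite : ∀ v : HeightOneSpectrum (𝓞 M), LocTriv W (Comp (𝓞 M) M v) (Sep (Comp (𝓞 M) M v)) f
  real : ∀ ρ : M →+* ℝ, letI := ρ.toAlgebra; LocTriv W ℝ (Sep ℝ) f

/-- The coboundaries of the points of `W` over a separable closure. -/
noncomputable def Coboundaries (W : WeierstrassCurve M) : AddSubgroup (Cochain W) where
  carrier := {f | ∃ T : Pt W (Sep M), ∀ σ, f σ = act W (rs M σ) T - T}
  zero_mem' := (Pool.Agent.H68K.PR.CobP W).zero_mem
  add_mem' := (Pool.Agent.H68K.PR.CobP W).add_mem
  neg_mem' := (Pool.Agent.H68K.PR.CobP W).neg_mem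

/-- The group of the cochains modulo the coboundaries. It contains `H¹(M, W)`. -/
def Classes (W : WeierstrassCurve M) : Type := Cochain W ⧸ Coboundaries W

noncomputable instance classesGroup (W : WeierstrassCurve M) : AddCommGroup (Classes W) :=
  QuotientAddGroup.Quotient.addCommGroup (Coboundaries W)

/-- The class of a cochain. -/
noncomputable def cls (W : WeierstrassCurve M) (f : Cochain W) : Classes W := QuotientAddGroup.mk f

/-- The Tate-Shafarevich group of `W`: the classes of the continuous cocycles which are locally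
trivial. -/
def Sha (W : WeierstrassCurve M) : Set (Classes W) :=
  {x | ∃ f : Cochain W, IsCoc W f ∧ Locally W f ∧ x = cls W f}

/-- The elements `x` of `Ш` with `2 x = 0`. -/
def ShaTwo (W : WeierstrassCurve M) : Set (Classes W) := {x | x ∈ Sha W ∧ (2 : ℕ) • x = 0}

end sha

/-- The rank of the group `W(M)` of the points of `W` over `M`. -/
noncomputable def mordellWeilRank {M : Type} [Field M] (W : WeierstrassCurve M) : ℕ :=
  Module.finrank ℤ (Pt W M)

/-- The curve `y² = x³ + a x + b` over the extension `M` of `F`, for integers `a`, `b` of `F`. -/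
def curve {F : Type} [Field F] [NumberField F] (M : Type) [Field M] [Algebra F M]
    (p : 𝓞 F × 𝓞 F) : WeierstrassCurve M :=
  ⟨0, 0, 0, algebraMap F M (p.1 : F), algebraMap F M (p.2 : F)⟩

section curves

variable {F : Type} [Field F] [NumberField F]

/-- `Ш(E / M)[2]` is finite, and `rank E(M) + dim Ш(E / M)[2] ≤ k [M : F]`. -/
structure Bounded (k : ℕ) (M : Type) [Field M] [NumberField M] [Algebra F M] (p : 𝓞 F × 𝓞 F) :
    Prop where
  finite : (ShaTwo (curve M p)).Finite
  bound : 2 ^ mordellWeilRank (curve M p) * (ShaTwo (curve M p)).ncard ≤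
    2 ^ (k * Module.finrank F M)

/-- The group of points over `M` is finite of odd order, and `Ш` over `M` has no nonzero element of
2-power order. -/
structure Good (M : Type) [Field M] [NumberField M] [Algebra F M] (p : 𝓞 F × 𝓞 F) : Prop where
  finite : Finite (Pt (curve M p) M)
  odd : Odd (Nat.card (Pt (curve M p) M))
  sha : ∀ x ∈ Sha (curve M p), ∀ n : ℕ, (2 ^ n : ℕ) • x = 0 → x = 0

end curves

section admissible

variable (F : Type) {M : Type} [Field F] [NumberField F] [Field M] [NumberField M] [Algebra F M]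

/-- The decomposition group of the prime `w` of `M` over `F` is trivial. -/
def SplitAt (w : HeightOneSpectrum (𝓞 M)) : Prop :=
  MulAction.stabilizer Gal(M/F) w.asIdeal = ⊥

/-- The inertia group of the prime `w` of `M` over `F` is trivial. -/
def UnramifiedAt (w : HeightOneSpectrum (𝓞 M)) : Prop :=
  w.asIdeal.inertia Gal(M/F) = ⊥

variable (M)

/-- The extension `M` of `F` is admissible for the curve `y² = x³ + a x + b`, `p = (a, b)`, with respect
to `N`: it is Galois of 2-power degree; the decomposition groups of the primes of `M` over `N` are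
trivial; every embedding of `F` in `ℝ` extends to `M`; the cubic has no root modulo the primes of `F`
below the primes of `M` with nontrivial inertia group. -/
structure Admissible (N : ℕ) (p : 𝓞 F × 𝓞 F) : Prop where
  galois : IsGalois F M
  degree : ∃ n : ℕ, Module.finrank F M = 2 ^ n
  split : ∀ w : HeightOneSpectrum (𝓞 M), (N : 𝓞 M) ∈ w.asIdeal → SplitAt F w
  real : ∀ σ : F →+* ℝ, ∃ ρ : M →+* ℝ, ρ.comp (algebraMap F M) = σ
  ramified : ∀ w : HeightOneSpectrum (𝓞 M), ¬ UnramifiedAt F w →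
    ∀ z : 𝓞 F, z ^ 3 + p.1 * z + p.2 ∉ (w.under (𝓞 F)).asIdeal

end admissible

/-- The prime numbers `l` such that `M(√l)` is admissible for every admissible field `M`. -/
def Steps (F : Type) [Field F] [NumberField F] (N : ℕ) (p : 𝓞 F × 𝓞 F) : Set ℕ :=
  {l : ℕ | l.Prime ∧
    ∀ (M M' : Type) [Field M] [NumberField M] [Field M'] [NumberField M'] [Algebra F M]
      [Algebra M M'] [Algebra F M'] [IsScalarTower F M M'] (x : M'),
      x ^ 2 = (l : M') → M⟮x⟯ = ⊤ → Admissible F M N p → Admissible F M' N p}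

section family

variable (F : Type) [Field F] [NumberField F]

/-- The elliptic curves over `F`: pairs of integers `(a, b)` with `4 a³ + 27 b² ≠ 0` for which
no nonzero prime ideal `𝔭` satisfies both `𝔭⁴ ∣ a` and `𝔭⁶ ∣ b`. -/
def Curves : Set (𝓞 F × 𝓞 F) :=
  {p | 4 * p.1 ^ 3 + 27 * p.2 ^ 2 ≠ 0 ∧
    ∀ v : HeightOneSpectrum (𝓞 F), ¬ (p.1 ∈ v.asIdeal ^ 4 ∧ p.2 ∈ v.asIdeal ^ 6)}

variable {F}

/-- The height `max_σ max (|σ a|³, |σ b|²)`, over the embeddings `σ : F → ℂ`. -/
noncomputable def height (p : 𝓞 F × 𝓞 F) : ℝ :=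
  ⨆ σ : F →+* ℂ, max (‖σ (p.1 : F)‖ ^ 3) (‖σ (p.2 : F)‖ ^ 2)

variable (F)

/-- The elliptic curves over `F` of height at most `X`. -/
def UpTo (X : ℝ) : Set (𝓞 F × 𝓞 F) := {p ∈ Curves F | height p ≤ X}

variable {F}

/-- `R` is a union of residue classes modulo `N`. -/
def Periodic (N : ℕ) (R : Set (𝓞 F × 𝓞 F)) : Prop :=
  ∀ p p' : 𝓞 F × 𝓞 F, p ∈ R → (N : 𝓞 F) ∣ p'.1 - p.1 → (N : 𝓞 F) ∣ p'.2 - p.2 → p' ∈ R

/-- The residue class of `p₀` modulo `n`. -/
def ClassOf (n : ℕ) (p₀ : 𝓞 F × 𝓞 F) : Set (𝓞 F × 𝓞 F) :=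
  {p | (n : 𝓞 F) ∣ p.1 - p₀.1 ∧ (n : 𝓞 F) ∣ p.2 - p₀.2}

/-- The family given by `N` and `R`: the pairs `(a, b)` in `R` with `4 a³ + 27 b² ≠ 0` such that
`4 a³ + 27 b²` is not divisible by the square of a prime which does not divide `N`. -/
def Family (N : ℕ) (R : Set (𝓞 F × 𝓞 F)) : Set (𝓞 F × 𝓞 F) :=
  {p | p ∈ R ∧ 4 * p.1 ^ 3 + 27 * p.2 ^ 2 ≠ 0 ∧
    ∀ v : HeightOneSpectrum (𝓞 F), (N : 𝓞 F) ∉ v.asIdeal →
      4 * p.1 ^ 3 + 27 * p.2 ^ 2 ∉ v.asIdeal ^ 2}

end family

/-- The constant `C_{2,k}` of Poonen and Rains. -/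
noncomputable def poonenRains (k : ℕ) : ℝ :=
  (∏' j : ℕ, (1 + (2 : ℝ)⁻¹ ^ j)⁻¹) * ∏ i ∈ Finset.range k, (2 / ((2 : ℝ) ^ (i + 1) - 1))

section law

variable {F : Type} [Field F] [NumberField F]

/-- The proportion of the members of `G` which are in `A` is at least `d`. -/
def ShareAtLeast (G A : Set (𝓞 F × 𝓞 F)) (d : ℝ) : Prop :=
  d * (G.ncard : ℝ) ≤ ((G ∩ A).ncard : ℝ)

/-- The law (lower bounds for the proportions, up to `ε`) over all admissible fields, for the curves
in `G`. -/
structure Law (ε : ℝ) (N : ℕ) (G : Set (𝓞 F × 𝓞 F)) : Prop where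
  bounded : ∀ k : ℕ,
    ShareAtLeast G {p | ∀ (M : Type) [Field M] [NumberField M] [Algebra F M],
      Admissible F M N p → Bounded k M p} (∑ j ∈ Finset.range (k + 1), poonenRains j - ε)
  good : ShareAtLeast G {p | ∀ (M : Type) [Field M] [NumberField M] [Algebra F M],
      Admissible F M N p → Good M p} (poonenRains 0 - ε)

end law

theorem height_le {F : Type} [Field F] [NumberField F] {X : ℝ} (hX : 0 < X) (p : 𝓞 F × 𝓞 F) :
    height p ≤ X ↔ Pool.Agent.H18N.EC.HP (X ^ (1 / 6 : ℝ)) p := by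
  have hb : BddAbove (Set.range fun σ : F →+* ℂ =>
      max (‖σ (p.1 : F)‖ ^ 3) (‖σ (p.2 : F)‖ ^ 2)) := Set.Finite.bddAbove (Set.finite_range _)
  have hs : (X ^ (1 / 6 : ℝ)) ^ 6 = X := by
    rw [← Real.rpow_natCast, ← Real.rpow_mul hX.le]
    norm_num
  set s : ℝ := X ^ (1 / 6 : ℝ) with hsd
  have hs0 : 0 < s := Real.rpow_pos_of_pos hX _
  have key1 : ∀ x : ℝ, 0 ≤ x → (x ≤ s ^ 2 ↔ x ^ 3 ≤ X) := by
    intro x hx
    rw [← pow_le_pow_iff_left₀ hx (by positivity : 0 ≤ s ^ 2) (by norm_num : 3 ≠ 0), ← pow_mul, hs]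
  have key2 : ∀ x : ℝ, 0 ≤ x → (x ≤ s ^ 3 ↔ x ^ 2 ≤ X) := by
    intro x hx
    rw [← pow_le_pow_iff_left₀ hx (by positivity : 0 ≤ s ^ 3) (by norm_num : 2 ≠ 0), ← pow_mul, hs]
  constructor
  · intro h
    refine ⟨fun σ => ?_, fun σ => ?_⟩
    · exact (key1 _ (norm_nonneg _)).2 ((le_max_left _ _).trans ((le_ciSup hb σ).trans h))
    · exact (key2 _ (norm_nonneg _)).2 ((le_max_right _ _).trans ((le_ciSup hb σ).trans h))
  · rintro ⟨h1, h2⟩
    exact ciSup_le fun σ => max_le ((key1 _ (norm_nonneg _)).1 (h1 σ))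
      ((key2 _ (norm_nonneg _)).1 (h2 σ))

theorem adm_iff (F M : Type) [Field F] [NumberField F] [Field M] [NumberField M] [Algebra F M]
    (N : ℕ) (p : 𝓞 F × 𝓞 F) : Pool.Agent.H18N.EC.AdmP F M N p ↔ Admissible F M N p :=
  ⟨fun h => ⟨h.galois, h.deg, h.split, h.real, h.ram⟩,
    fun h => ⟨h.galois, h.degree, h.split, h.real, h.ramified⟩⟩

section prf

variable {M : Type} [Field M] [NumberField M]

theorem locally_iff (W : WeierstrassCurve M) (f : Cochain W) :
    Locally W f ↔ Pool.Agent.N874.QM.IsLoc W f :=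
  ⟨fun h => ⟨h.finite, h.real⟩, fun h => ⟨h.fin, h.real⟩⟩

theorem shaTwo_eq (W : WeierstrassCurve M) : ShaTwo W = Pool.Agent.H68K.PR.Sha2 W := by
  ext x
  constructor
  · rintro ⟨⟨f, h1, h2, rfl⟩, h3⟩
    refine ⟨f, h1, (locally_iff _ f).1 h2, ?_, rfl⟩
    have h4 : cls W ((2 : ℕ) • f) = 0 := h3
    obtain ⟨T, hT⟩ := (QuotientAddGroup.eq_zero_iff _).1 h4
    exact ⟨T, hT⟩
  · rintro ⟨f, h1, h2, ⟨T, hT⟩, rfl⟩
    refine ⟨⟨f, h1, (locally_iff _ f).2 h2, rfl⟩, ?_⟩
    show cls W ((2 : ℕ) • f) = 0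
    exact (QuotientAddGroup.eq_zero_iff _).2 ⟨T, hT⟩

end prf

section fld

variable {F : Type} [Field F] [NumberField F]

theorem order_of_gd {M : Type} [Field M] [NumberField M] [Algebra F M] {n : ℕ} {p : 𝓞 F × 𝓞 F}
    (h : Pool.Agent.H68K.PR.Gd n (algebraMap (𝓞 F) (𝓞 M) p.1, algebraMap (𝓞 F) (𝓞 M) p.2)) :
    (ShaTwo (curve M p)).Finite ∧
      2 ^ mordellWeilRank (curve M p) * (ShaTwo (curve M p)).ncard = n := by
  obtain ⟨h1, h2⟩ := Pool.Agent.H18X.sha_of_gd h
  rw [shaTwo_eq]
  exact ⟨h1, h2⟩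

theorem good_of_gd {M : Type} [Field M] [NumberField M] [Algebra F M] {p : 𝓞 F × 𝓞 F}
    (h : Pool.Agent.H68K.PR.Gd 1 (algebraMap (𝓞 F) (𝓞 M) p.1, algebraMap (𝓞 F) (𝓞 M) p.2)) :
    Good M p := by
  obtain ⟨hi, hs⟩ := h
  have hd := Pool.Agent.H64.PR.disc_ne hi
  obtain ⟨h5, h6, h7⟩ := Pool.Agent.H18PR.RL.good_of_sel hd (Pool.Agent.H42PR.coc M _ _ hd hi 1 hs)
  refine ⟨h5, h6, ?_⟩
  rintro x ⟨f, hf, hl, rfl⟩ n hn
  have h8 : cls (curve M p) ((2 ^ n : ℕ) • f) = 0 := hn
  obtain ⟨T, hT⟩ := (QuotientAddGroup.eq_zero_iff _).1 h8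
  obtain ⟨Q, hQ⟩ := h7 f hf ((locally_iff _ f).1 hl) ⟨n, T, hT⟩
  exact (QuotientAddGroup.eq_zero_iff _).2 ⟨Q, hQ⟩

theorem bounded_of {N k : ℕ} {p : 𝓞 F × 𝓞 F} (h : Pool.Agent.H18N.EC.GdA N k p)
    (M : Type) [Field M] [NumberField M] [Algebra F M] (hM : Admissible F M N p) :
    Bounded k M p := by
  obtain ⟨m, hm, hG⟩ := h M ((adm_iff F M N p).2 hM)
  obtain ⟨h7, h8⟩ := order_of_gd hG
  exact ⟨h7, by rw [h8]; exact hm⟩

theorem good_of {N : ℕ} {p : 𝓞 F × 𝓞 F} (h : Pool.Agent.H18N.EC.GdA N 0 p)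
    (M : Type) [Field M] [NumberField M] [Algebra F M] (hM : Admissible F M N p) : Good M p := by
  obtain ⟨m, hm, hG⟩ := h M ((adm_iff F M N p).2 hM)
  rw [zero_mul, pow_zero] at hm
  have h1 : 0 < m := Pool.Agent.H18X.selN_pos hG.2
  have h2 : m = 1 := by omega
  subst h2
  exact good_of_gd hG

theorem share_of {G A B : Set (𝓞 F × 𝓞 F)} {d : ℝ} (hG : G.Finite)
    (hB : ∀ p ∈ G, p ∉ B → p ∈ A) (h : ((G ∩ B).ncard : ℝ) ≤ (1 - d) * (G.ncard : ℝ)) :
    ShareAtLeast G A d := by
  have h1 : G.ncard ≤ (G ∩ A).ncard + (G ∩ B).ncard := by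
    have h2 : G ⊆ (G ∩ A) ∪ (G ∩ B) := by
      intro p hp
      by_cases hpB : p ∈ B
      · exact Or.inr ⟨hp, hpB⟩
      · exact Or.inl ⟨hp, hB p hp hpB⟩
    refine (Set.ncard_le_ncard h2 ?_).trans (Set.ncard_union_le _ _)
    exact (hG.subset Set.inter_subset_left).union (hG.subset Set.inter_subset_left)
  have h3 : (G.ncard : ℝ) ≤ ((G ∩ A).ncard : ℝ) + ((G ∩ B).ncard : ℝ) := by exact_mod_cast h1
  show d * (G.ncard : ℝ) ≤ ((G ∩ A).ncard : ℝ)
  linarith

end fld

/-- **Near every elliptic curve.** Let `F` be a number field, `p₀` an elliptic curve over `F`, `n ≥ 1` and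
`ε > 0`. There are `N`, a union `R` of residue classes modulo `N`, contained in the class of `p₀` modulo
`n`, and `c > 0` such that all members of the family of `N` and `R` are minimal and have infinitely many
prime numbers `l` for which `M(√l)` is admissible for every admissible `M`, and for all large `X` at least
`c` times as many as all elliptic curves over `F` of height at most `X` are in the family of `N` and `R`,
and among those in the family: (1) for every `k` the proportion with
`rank E(M) + dim Ш(E / M)[2] ≤ k [M : F]` for all admissible `M` is at least `C_{2,0} + … + C_{2,k} - ε`;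
(2) the proportion with `E(M)` finite of odd order and `Ш(E / M)[2^∞] = 0` for all admissible `M` is at
least `C_{2,0} - ε`. -/
theorem result (F : Type) [Field F] [NumberField F] (p₀ : 𝓞 F × 𝓞 F) (hp₀ : p₀ ∈ Curves F)
    (n : ℕ) (hn : 0 < n) (ε : ℝ) (hε : 0 < ε) :
    ∃ (N : ℕ) (R : Set (𝓞 F × 𝓞 F)), 0 < N ∧ Periodic N R ∧ R ⊆ ClassOf n p₀ ∧
      Family N R ⊆ Curves F ∧ (∀ p ∈ Family N R, (Steps F N p).Infinite) ∧
      ∃ c : ℝ, 0 < c ∧ ∃ X₀ : ℝ, ∀ X : ℝ, X₀ ≤ X →
        (UpTo F X).Finite ∧ 0 < (UpTo F X).ncard ∧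
        c * ((UpTo F X).ncard : ℝ) ≤ ((UpTo F X ∩ Family N R).ncard : ℝ) ∧
        Law ε N (UpTo F X ∩ Family N R) := by
  obtain ⟨N, R, hN, hR, hcl, hmin, hst, c, Y₀, hc, hY₀, h⟩ := Pool.Agent.H18N.EC.near
    Pool.Agent.H18N.famn Pool.Agent.H18N.CLSX.t Pool.Agent.H18N.admw Pool.Agent.H18N.stepw F n hn p₀
    hp₀.2 ε hε
  have hFam : ∀ p, p ∈ Pool.Agent.H18X.FamM N R ↔ p ∈ Family N R := fun p => Iff.rfl
  have hsubC : Family N R ⊆ Curves F := fun p hp => ⟨hp.2.1, hmin p hp⟩
  refine ⟨N, R, hN, hR, hcl, hsubC, fun p hp => ?_, c, hc, max 1 (Y₀ ^ 6), fun X hX => ?_⟩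
  · refine (hst p hp).mono ?_
    rintro l ⟨hl, h⟩
    exact ⟨hl, fun M M' _ _ _ _ _ _ _ _ x hx htop hM =>
      (adm_iff F M' N p).1 (h M M' x hx htop ((adm_iff F M N p).2 hM))⟩
  have hX1 : 1 ≤ X := (le_max_left _ _).trans hX
  have hX0 : 0 < X := zero_lt_one.trans_le hX1
  have hs : (X ^ (1 / 6 : ℝ)) ^ 6 = X := by
    rw [← Real.rpow_natCast, ← Real.rpow_mul hX0.le]
    norm_num
  have hYX : Y₀ ≤ X ^ (1 / 6 : ℝ) := by
    rw [← pow_le_pow_iff_left₀ hY₀.le (Real.rpow_nonneg hX0.le _) (by norm_num : 6 ≠ 0), hs]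
    exact (le_max_right _ _).trans hX
  obtain ⟨hfin, h2, h3, h4⟩ := h (X ^ (1 / 6 : ℝ)) hYX
  have hsub : UpTo F X ⊆ {p : 𝓞 F × 𝓞 F | Pool.Agent.H18N.EC.HP (X ^ (1 / 6 : ℝ)) p} :=
    fun p hp => (height_le hX0 p).1 hp.2
  have hfinU : (UpTo F X).Finite := hfin.subset hsub
  have hcard : ((UpTo F X).ncard : ℝ) ≤
      ({p : 𝓞 F × 𝓞 F | Pool.Agent.H18N.EC.HP (X ^ (1 / 6 : ℝ)) p}.ncard : ℝ) := by
    exact_mod_cast Set.ncard_le_ncard hsub hfin
  have hGe : UpTo F X ∩ Family N R =
      {p : 𝓞 F × 𝓞 F | Pool.Agent.H18N.EC.HP (X ^ (1 / 6 : ℝ)) p ∧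
        p ∈ Pool.Agent.H18X.FamM N R} := by
    ext p
    constructor
    · rintro ⟨h5, h6⟩
      exact ⟨(height_le hX0 p).1 h5.2, h6⟩
    · rintro ⟨h5, h6⟩
      exact ⟨⟨hsubC h6, (height_le hX0 p).2 h5⟩, h6⟩
  rw [← hGe] at h2 h3
  set G : Set (𝓞 F × 𝓞 F) := UpTo F X ∩ Family N R with hG
  have hGfin : G.Finite := hfinU.subset Set.inter_subset_left
  have hpos : 0 < (UpTo F X).ncard :=
    h2.trans_le (Set.ncard_le_ncard Set.inter_subset_left hfinU)
  have h5 : ∀ k : ℕ, ((G ∩ {p | ¬ Pool.Agent.H18N.EC.GdA N k p}).ncard : ℝ) ≤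
      (1 - (∑ j ∈ Finset.range (k + 1), poonenRains j - ε)) * (G.ncard : ℝ) := by
    intro k
    have h6 := h4 k
    rw [← hGe] at h6
    have e1 : G ∩ {p | ¬ Pool.Agent.H18N.EC.GdA N k p} =
        {p : 𝓞 F × 𝓞 F | Pool.Agent.H18N.EC.HP (X ^ (1 / 6 : ℝ)) p ∧
          p ∈ Pool.Agent.H18X.FamM N R ∧ ¬ Pool.Agent.H18N.EC.GdA N k p} := by
      rw [hGe]
      ext p
      exact and_assoc
    rw [e1]
    refine h6.trans (le_of_eq ?_)
    congr 1
    have e2 : ∀ j, Pool.Agent.H68K.PR.pr2 j = poonenRains j := fun j => rfl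
    simp only [e2]
    ring
  refine ⟨hfinU, hpos, (mul_le_mul_of_nonneg_left hcard hc.le).trans h3, ⟨fun k => ?_, ?_⟩⟩
  · refine share_of hGfin (B := {p | ¬ Pool.Agent.H18N.EC.GdA N k p}) ?_ (h5 k)
    intro p _ hp M _ _ _ hM
    exact bounded_of (not_not.1 hp) M hM
  · refine share_of hGfin (B := {p | ¬ Pool.Agent.H18N.EC.GdA N 0 p}) ?_ ?_
    · intro p _ hp M _ _ _ hM
      exact good_of (not_not.1 hp) M hM
    · have h6 := h5 0
      rw [Finset.sum_range_one] at h6
      exact h6

end Pool.Agent.Results.MP_78d38b_nt.NearEveryCurve
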