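import Pool.Agent.H93.QT.Cri
import Pool.Agent.Y699.Cls
import Pool.Agent.Y715.Z.Sel

/-!
# Prime quartic twists of arbitrary curves `y² = x³ + D x` over `ℚ(i)`: trivial `Ш[2^∞]`, finite
# Mordell-Weil group and nonzero `L`-value, for finitely many `D` at once

`K` is a number field with an isomorphism `e` of the ring `ℤ[i]` of Gaussian integers with its ring
of integers (so `K = ℚ(i)`), and `E_D : y² = x³ + D x`.  `I` is a finite nonempty set of squarefree
Gaussian integers `D = 1` modulo `2 + 2i`, whose norms are congruent modulo `16`, and which are otherwise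
ARBITRARY (no condition on the number of the prime factors, on their residue symbols, on the rank, on
`Ш` or on the `L`-function of `E_D`).

Every prime of `ℤ[i]` that does not divide `2` is associated to exactly one primary prime `ρ`, one with
`ρ = 1` modulo `2 + 2i`.  Among the primary primes `ρ`, ordered by norm, those that satisfy for all
`D ∈ I` the condition

* `ρ` does not divide `D`, the norm of `D ρ` is `13` modulo `16`, and the matrix `lap D + diag(u)` over
  the field with two elements is nonsingular, where `lap D` is the Laplacian of the graph of the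
  quadratic residue symbols of the prime factors of `D` and `u` is the vector of the residue symbols of
  these prime factors modulo `ρ`

have exactly the density `μ / (4 · 2^|P|)`, where `P` is the set of the primary primes that divide a
member of `I` and `μ` is the number of the vectors `u : P → F₂` such that all the matrices
`lap D + diag(u)`, `D ∈ I`, are nonsingular.  Moreover `μ ≥ ∏_{π ∈ P} (2 - m_π)`, where `m_π` is the
number of the members of `I` divisible by `π`; so the density is at least `1 / (4 · 2^|P|) > 0` if the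
members of `I` are pairwise coprime, in particular for one `D`.

For all these `ρ` and all `D ∈ I`: the 2-primary part of `Ш(E_{D ρ}/K)` is trivial, `E_{D ρ}(K)` has two
elements, and `L(E_{D ρ}/K, s)` is an entire function that does not vanish at `s = 1` (so that, by the
theorem of Rubin, which is not used, `Ш(E_{D ρ}/K)` is finite).

The criterion for one curve is that of the starting file `PositiveProportionSha` (helpers 699, 715 and
682).  The joint law of the residue symbols of primes of `ℤ[i]` is proved as in the starting library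
`Pool/Agent/Q283/GA`, whose field and whose independence theorem are used, and the theorem on diagonal
perturbations is that of helper20 (`Pool/Agent/H20PT/LinF.lean`).  The new part is in
`Pool/Agent/H93/QT`.
-/

set_option autoImplicit false

open scoped Classical

namespace Pool.Agent.Results.MP_78d38b_nt.PrimeQuarticTwists

open NumberField IsDedekindDomain Filter Topology

/-- `W v` is, for every finite place `v`, an integral model of `E` with discriminant minimal at
`v`. -/
def MinimalModels {K : Type} [Field K] [NumberField K] (E : WeierstrassCurve K)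
    (W : HeightOneSpectrum (𝓞 K) → WeierstrassCurve (𝓞 K)) : Prop :=
  ∀ v : HeightOneSpectrum (𝓞 K),
    (∃ C : WeierstrassCurve.VariableChange K, C • (W v).map (algebraMap (𝓞 K) K) = E) ∧
    ∀ W' : WeierstrassCurve (𝓞 K),
      (∃ C : WeierstrassCurve.VariableChange K, C • W'.map (algebraMap (𝓞 K) K) = E) →
      ∀ n : ℕ, (W v).Δ ∈ v.asIdeal ^ n → W'.Δ ∈ v.asIdeal ^ n

/-- The Euler factor at `v`, `(1 - a_v Nv^{-s} + Nv^{1-2s})⁻¹` if the reduction at `v` is good and
`(1 - a_v Nv^{-s})⁻¹` if it is bad, where `a_v` is `Nv` minus the number of affine points of the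
reduction of `W v`. -/
noncomputable def localFactor {K : Type} [Field K] [NumberField K]
    (W : HeightOneSpectrum (𝓞 K) → WeierstrassCurve (𝓞 K)) (v : HeightOneSpectrum (𝓞 K))
    (s : ℂ) : ℂ :=
  (1 - ((Ideal.absNorm v.asIdeal : ℂ)
        - (Nat.card {xy : (𝓞 K ⧸ v.asIdeal) × (𝓞 K ⧸ v.asIdeal) //
            ((W v).map (Ideal.Quotient.mk v.asIdeal)).toAffine.Equation xy.1 xy.2} : ℂ))
        * (Ideal.absNorm v.asIdeal : ℂ) ^ (-s)
    + (if (W v).Δ ∈ v.asIdeal then 0 else (Ideal.absNorm v.asIdeal : ℂ))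
        * (Ideal.absNorm v.asIdeal : ℂ) ^ (-2 * s))⁻¹

/-- The product of the Euler factors of `E` (for minimal models, `Re s > 3/2`) extends to an entire
function that does not vanish at `s = 1`. -/
def CentralValueNonzero {K : Type} [Field K] [NumberField K] (E : WeierstrassCurve K) : Prop :=
  (∃ W : HeightOneSpectrum (𝓞 K) → WeierstrassCurve (𝓞 K), MinimalModels E W) ∧
  ∃ L : ℂ → ℂ, Differentiable ℂ L ∧
    (∀ W : HeightOneSpectrum (𝓞 K) → WeierstrassCurve (𝓞 K), MinimalModels E W →
      ∀ s : ℂ, 3 / 2 < s.re → HasProd (fun v => localFactor W v s) (L s)) ∧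
    L 1 ≠ 0

/-- The curve `y² = x³ + D x`. -/
noncomputable def curve {K : Type} [Field K] [NumberField K] (e : GaussianInt ≃+* 𝓞 K)
    (D : GaussianInt) : WeierstrassCurve K :=
  ⟨0, 0, 0, algebraMap (𝓞 K) K (e D), 0⟩

/-- For `K = ℚ(i)` (every number field `K` with an isomorphism `e` of `ℤ[i]` with its ring of integers)
and `E_D : y² = x³ + D x`, the group `Ш(E_D/K)` has no nonzero element killed by a power of two,
`E_D(K)` has exactly two elements, and the central value of the `L`-function of `E_D/K` is not zero. -/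
def Good (D : GaussianInt) : Prop :=
  ∀ (K : Type) [Field K] [NumberField K] (e : GaussianInt ≃+* 𝓞 K),
    (∀ (n : ℕ) (x : Pool.Agent.TH841.NF.D.Sha (curve e D)), 2 ^ n • x = 0 → x = 0) ∧
    Nat.card (curve e D).toAffine.Point = 2 ∧ CentralValueNonzero (curve e D)

/-- `z = 1` modulo `2 + 2i` -/
def Primary (z : GaussianInt) : Prop := (⟨2, 2⟩ : GaussianInt) ∣ z - 1

/-- the primary primes -/
def PrimaryPrime (π : GaussianInt) : Prop := Prime π ∧ Primary π

/-- the set of the primary primes that divide `D` -/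
noncomputable def primes (D : GaussianInt) : Finset GaussianInt :=
  if h : {π : GaussianInt | PrimaryPrime π ∧ π ∣ D}.Finite then h.toFinset else ∅

/-- `1` if `a` is not a square modulo `π`, and `0` if it is -/
noncomputable def nonsq (π a : GaussianInt) : ZMod 2 := if ∃ b, π ∣ a - b ^ 2 then 0 else 1

/-- The Laplacian of the residue symbols between the prime factors of `D`: the matrix over the field
with two elements with the entry `nonsq i j` at `(i, j)`, `i ≠ j`, and the sum of the `nonsq i l` for all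
`l ≠ i` at `(i, i)`. -/
noncomputable def lap (D : GaussianInt) : Matrix (primes D) (primes D) (ZMod 2) :=
  Matrix.of fun i j => if i = j then ∑ l ∈ (primes D).erase i, nonsq i l else nonsq i j

/-- the condition for a twist by `ρ` -/
def Crit (D ρ : GaussianInt) : Prop :=
  ¬ ρ ∣ D ∧ (D * ρ).norm % 16 = 13 ∧
    (lap D + Matrix.diagonal (fun π : primes D => nonsq ρ π)).det ≠ 0

/-- the primary primes that divide a member of the family -/
noncomputable def allPrimes (I : Finset GaussianInt) : Finset GaussianInt := I.biUnion primes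

/-- `u` extended by zero -/
def ext {P : Finset GaussianInt} (u : P → ZMod 2) (p : GaussianInt) : ZMod 2 :=
  if h : p ∈ P then u ⟨p, h⟩ else 0

/-- the number `μ` of the vectors `u` such that all the matrices `lap D + diag(u)` are nonsingular -/
noncomputable def μ (I : Finset GaussianInt) : ℕ :=
  Nat.card {u : allPrimes I → ZMod 2 // ∀ D ∈ I,
    (lap D + Matrix.diagonal (fun π : primes D => ext u π)).det ≠ 0}

/-- the set `Q` of primary primes has the density `δ` among the primary primes, ordered by norm -/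
def HasDensity (Q : GaussianInt → Prop) (δ : ℝ) : Prop :=
  Tendsto (fun X : ℕ => ({ρ : GaussianInt | PrimaryPrime ρ ∧ ρ.norm ≤ X ∧ Q ρ}.ncard : ℝ) /
    ({ρ : GaussianInt | PrimaryPrime ρ ∧ ρ.norm ≤ X}.ncard : ℝ)) atTop (𝓝 δ)

/-! ### The criterion -/

/-- the criterion of the starting library for one curve -/
theorem good_of {D : GaussianInt} (hg : Pool.Agent.Y699.Good4 D) : Good D := by
  intro K _ _ e
  have hre := (Pool.Agent.Y699.comp_mod hg.ps.prm hg.nm).1
  have hc : Nat.card (curve e D).toAffine.Point = 2 :=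
    Pool.Agent.Y699.card_pts4 (Pool.Agent.Y699.neg_not_sq hg e) two_ne_zero
      (fun x y h => Pool.Agent.Y699.crit_pts4 hg e h)
  have hD0 : algebraMap (𝓞 K) K (e D) ≠ 0 := Pool.Agent.Y715.Z.em0_ne e hg.ps.ne
  have hT : Pool.Agent.Y682.IsT (curve e D) 0 (Pool.Agent.Y715.Z.em0 e D) :=
    { h1 := rfl, h2 := rfl, h3 := rfl, h4 := rfl, h6 := rfl, hB := hD0
      hD := by
        rw [zero_pow two_ne_zero, zero_sub, neg_ne_zero]
        exact mul_ne_zero (by norm_num) hD0 }
  obtain ⟨L, hL1, hL2, hL3⟩ := Pool.Agent.Y699.crit_L4 hg e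
  refine ⟨fun n x hx => Pool.Agent.Y715.Z.sha_pow e hg hT n x hx, hc,
    ⟨fun _ => Pool.Agent.Y699.cr4 (e D), fun v => Pool.Agent.Y699.cr4_min e hg.ps hre v⟩,
    L, hL1, fun W hW s hs => hL3 W hW s hs, hL2⟩

/-! ### Translations -/

open Pool.Agent.H93.QT (Pp Prm NT nsq AM)
open Pool.Agent.Y699 (PP PS PD mem_PD)
open Pool.Agent.H20PT.FF (Ns)

theorem primary_iff (z : GaussianInt) : Primary z ↔ Prm z :=
  (Pool.Agent.W164.RC.prim_iff_dvd z).symm

theorem pp_iff (π : GaussianInt) : PrimaryPrime π ↔ Pp π :=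
  ⟨fun h => ⟨h.1, (primary_iff π).1 h.2⟩, fun h => ⟨h.prime, (primary_iff π).2 h.prm⟩⟩

theorem pp_iff' (π : GaussianInt) : PrimaryPrime π ↔ PP π :=
  ⟨fun h => ⟨h.1, (primary_iff π).1 h.2⟩, fun h => ⟨h.pr, (primary_iff π).2 h.prm⟩⟩

theorem primes_eq {D : GaussianInt} (hD : D ≠ 0) : primes D = PD D := by
  have hf : {π : GaussianInt | PrimaryPrime π ∧ π ∣ D}.Finite := by
    refine (Pool.Agent.Y699.fin_pd hD).subset ?_
    rintro π ⟨h1, h2⟩
    exact ⟨(pp_iff' π).1 h1, h2⟩
  unfold primes
  rw [dif_pos hf]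
  ext π
  rw [Set.Finite.mem_toFinset, mem_PD hD]
  show PrimaryPrime π ∧ π ∣ D ↔ _
  rw [pp_iff']

theorem mem_primes {D : GaussianInt} (hD : D ≠ 0) {π : GaussianInt} :
    π ∈ primes D ↔ PrimaryPrime π ∧ π ∣ D := by
  rw [primes_eq hD, mem_PD hD, pp_iff']

theorem nonsq_eq : nonsq = nsq := by
  funext π a
  unfold nonsq nsq
  congr

theorem det_iff {D : GaussianInt} (hD : D ≠ 0) (f : GaussianInt → ZMod 2) :
    (lap D + Matrix.diagonal (fun π : primes D => f π)).det ≠ 0 ↔ Ns (primes D) (AM D) f := by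
  rw [Pool.Agent.H93.QT.Ns_coe, Pool.Agent.H20PT.FF.Ns_iff_det]
  have h4 : lap D + Matrix.diagonal (fun π : primes D => f π) =
      Matrix.of (fun p r : primes D => AM D p r) + Matrix.diagonal (fun p : primes D => f p) := by
    congr 1
    ext p r
    simp only [lap, AM, Matrix.of_apply, Subtype.ext_iff, nonsq_eq, primes_eq hD]
  rw [h4]

/-- the criterion for a twist by `ρ` -/
theorem good_of_crit {D ρ : GaussianInt} (hp : Primary D) (hs : Squarefree D) (hρ : PrimaryPrime ρ)
    (h : Crit D ρ) : Good (D * ρ) := by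
  obtain ⟨h1, h2, h3⟩ := h
  refine good_of (Pool.Agent.H93.QT.good4 ⟨(primary_iff D).1 hp, hs⟩ ((pp_iff' ρ).1 hρ) h1 h2 ?_)
  rw [← primes_eq hs.ne_zero, ← nonsq_eq]
  exact (det_iff hs.ne_zero (fun π => nonsq ρ π)).1 h3

/-! ### The classes modulo `16` -/

theorem norm_mod4 {z : GaussianInt} (h : Prm z) : z.norm % 4 = 1 := by
  obtain ⟨h7, h8⟩ := h
  rw [Pool.Agent.Y715.Rec.norm_eq]
  have h9 : z.im ^ 2 % 4 = 0 := by
    obtain ⟨t, ht⟩ : ∃ t, z.im = 2 * t := ⟨z.im / 2, by omega⟩
    rw [ht]
    have : (2 * t) ^ 2 = 4 * t ^ 2 := by ring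
    omega
  have h10 : z.re ^ 2 % 4 = 1 := by
    obtain ⟨t, ht⟩ : ∃ t, z.re = 2 * t + 1 := ⟨z.re / 2, by omega⟩
    rw [ht]
    have : (2 * t + 1) ^ 2 = 4 * (t ^ 2 + t) + 1 := by ring
    omega
  omega

/-- the class of the norm of the new prime -/
theorem exists_class {n : ℤ} (h : n % 4 = 1) : ∃ c : ℕ, c % 4 = 1 ∧ ∀ (m : ℤ) (p : ℕ), m % 16 = n % 16 →
    ((m * p) % 16 = 13 ↔ p % 16 = c % 16) := by
  have key : ∀ (a b : ℤ), a * b % 16 = (a % 16) * (b % 16) % 16 := fun a b => Int.mul_emod a b 16
  have h5 : n % 16 = 1 ∨ n % 16 = 5 ∨ n % 16 = 9 ∨ n % 16 = 13 := by omega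
  rcases h5 with h5 | h5 | h5 | h5
  · refine ⟨13, by norm_num, fun m p hm => ?_⟩
    rw [key, hm, h5]; omega
  · refine ⟨9, by norm_num, fun m p hm => ?_⟩
    rw [key, hm, h5]; omega
  · refine ⟨5, by norm_num, fun m p hm => ?_⟩
    rw [key, hm, h5]; omega
  · refine ⟨1, by norm_num, fun m p hm => ?_⟩
    rw [key, hm, h5]; omega

/-! ### The theorem -/

/-- **Prime twists of finitely many arbitrary members of the family.** -/
theorem result (I : Finset GaussianInt) (hne : I.Nonempty)
    (hI : ∀ D ∈ I, Primary D ∧ Squarefree D)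
    (hN : ∀ D ∈ I, ∀ D' ∈ I, D.norm % 16 = D'.norm % 16) :
    -- the exact density of the primes that satisfy the condition for all members
    HasDensity (fun ρ => ∀ D ∈ I, Crit D ρ) ((μ I : ℝ) / (4 * 2 ^ (allPrimes I).card)) ∧
    -- the lower bound
    ∏ π ∈ allPrimes I, (2 - (I.filter fun D => π ∣ D).card) ≤ μ I ∧
    ((∀ D ∈ I, ∀ D' ∈ I, D ≠ D' → IsCoprime D D') → 1 ≤ μ I) ∧
    -- the condition is sufficient
    (∀ D ∈ I, ∀ ρ : GaussianInt, PrimaryPrime ρ → Crit D ρ → Good (D * ρ)) := by
  have hI0 : ∀ D ∈ I, D ≠ 0 := fun D hD => (hI D hD).2.ne_zero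
  have hP : ∀ π ∈ allPrimes I, Pp π := by
    intro π hπ
    unfold allPrimes at hπ
    rw [Finset.mem_biUnion] at hπ
    obtain ⟨D, hD, hπ⟩ := hπ
    exact (pp_iff π).1 ((mem_primes (hI0 D hD)).1 hπ).1
  have hsub : ∀ D ∈ I, primes D ⊆ allPrimes I := fun D hD => Finset.subset_biUnion_of_mem primes hD
  have hlow : ∏ π ∈ allPrimes I, (2 - (I.filter fun D => π ∣ D).card) ≤ μ I := by
    have h1 := Pool.Agent.H20PT.FF.count_all (k := ZMod 2) I AM (fun _ => 1) (fun _ _ => one_ne_zero)
      (allPrimes I) primes hsub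
    have h2 : μ I = (Finset.univ.filter fun u : allPrimes I → ZMod 2 => ∀ i ∈ I,
        Ns (primes i) (AM i) (fun p => 1 * Pool.Agent.H20PT.FF.ex u p)).card := by
      unfold μ
      rw [Nat.card_eq_fintype_card, Fintype.card_subtype]
      congr 1
      refine Finset.filter_congr fun u _ => forall₂_congr fun D hD => ?_
      rw [det_iff (hI0 D hD)]
      have : (fun p => (1 : ZMod 2) * Pool.Agent.H20PT.FF.ex u p) = ext u := by
        funext p
        rw [one_mul]
        rfl
      rw [this]
    rw [h2]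
    refine le_trans (le_of_eq ?_) h1
    refine Finset.prod_congr rfl fun π hπ => ?_
    rw [ZMod.card]
    congr 2
    refine Finset.filter_congr fun D hD => ?_
    rw [mem_primes (hI0 D hD)]
    exact ⟨fun h => ⟨(pp_iff π).2 (hP π hπ), h⟩, fun h => h.2⟩
  refine ⟨?_, hlow, ?_, fun D hD ρ hρ h => good_of_crit (hI D hD).1 (hI D hD).2 hρ h⟩
  · obtain ⟨D₀, hD₀⟩ := hne
    obtain ⟨c, hc4, hc⟩ := exists_class (norm_mod4 ((primary_iff D₀).1 (hI D₀ hD₀).1))
    have key := Pool.Agent.H93.QT.density hP hc4
      (fun u => ∀ D ∈ I, (lap D + Matrix.diagonal (fun π : primes D => ext u π)).det ≠ 0)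
      (fun ρ => ∀ D ∈ I, Crit D ρ) (by
        intro p hp hp2 ρ hρ hn hρP
        have hnd : ∀ D ∈ I, ¬ ρ ∣ D := by
          intro D hD h
          exact hρP (hsub D hD ((mem_primes (hI0 D hD)).2 ⟨(pp_iff ρ).2 hρ, h⟩))
        have hdiag : ∀ D ∈ I, (fun π : primes D => nonsq ρ π) =
            fun π : primes D => ext (fun q : allPrimes I => Pool.Agent.Y715.Qr.qs ρ q) π := by
          intro D hD
          funext π
          unfold ext
          rw [dif_pos (hsub D hD π.2)]
          unfold nonsq Pool.Agent.Y715.Qr.qs Pool.Agent.Y715.Qr.Sqm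
          congr
        have hnorm : ∀ D ∈ I, ((D * ρ).norm % 16 = 13 ↔ p % 16 = c % 16) := by
          intro D hD
          rw [Zsqrtd.norm_mul, hn]
          exact hc _ _ (hN D hD D₀ hD₀)
        constructor
        · intro h
          refine ⟨(hnorm D₀ hD₀).1 (h D₀ hD₀).2.1, fun D hD => ?_⟩
          rw [← hdiag D hD]
          exact (h D hD).2.2
        · rintro ⟨h1, h2⟩ D hD
          refine ⟨hnd D hD, (hnorm D hD).2 h1, ?_⟩
          rw [hdiag D hD]
          exact h2 D hD)
    unfold HasDensity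
    refine key.congr fun X => ?_
    unfold NT
    have e1 : {π : GaussianInt | Pp π ∧ π.norm ≤ X ∧ ∀ D ∈ I, Crit D π} =
        {ρ : GaussianInt | PrimaryPrime ρ ∧ ρ.norm ≤ X ∧ ∀ D ∈ I, Crit D ρ} := by
      ext π
      simp only [Set.mem_setOf_eq, pp_iff]
    have e2 : {π : GaussianInt | Pp π ∧ π.norm ≤ X ∧ True} =
        {ρ : GaussianInt | PrimaryPrime ρ ∧ ρ.norm ≤ X} := by
      ext π
      simp only [Set.mem_setOf_eq, pp_iff, and_true]
    rw [e1, e2]
  · intro hcop
    have h1 : 0 < ∏ π ∈ allPrimes I, (2 - (I.filter fun D => π ∣ D).card) := by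
      refine Finset.prod_pos fun π hπ => ?_
      have h2 : (I.filter fun D => π ∣ D).card ≤ 1 := by
        rw [Finset.card_le_one]
        intro D hD D' hD'
        rw [Finset.mem_filter] at hD hD'
        by_contra hDD
        exact (hP π hπ).prime.not_isUnit ((hcop D hD.1 D' hD'.1 hDD).isUnit_of_dvd' hD.2 hD'.2)
      omega
    omega

end Pool.Agent.Results.MP_78d38b_nt.PrimeQuarticTwists
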