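import Pool.Agent.H18X.Law

/-!
# The rank and the 2-torsion of the Tate-Shafarevich group over infinitely many extensions at once, in large
families of elliptic curves over every number field

Let `F` be any number field. For a curve `E : y² = x³ + a x + b` over `F` call a finite extension `M` of
`F` admissible if `M / F` is Galois of 2-power degree, the primes over `2` and the real places of `F`
split completely in `M`, the primes `𝔭` of `F` with `𝔭² ∣ a`, `𝔭³ ∣ b` split completely in `M`, and the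
cubic `x³ + a x + b` has no root modulo any prime of `F` which is ramified in `M`. The field `F` itself is
admissible. The constants of Poonen and Rains are
`C_{2,k} = ∏_{j ≥ 0} (1 + 2^{-j})^{-1} ∏_{1 ≤ i ≤ k} 2 / (2^i - 1)`, so `C_{2,0} = 0.2097…`,
`C_{2,1} = 0.4194…`, `C_{2,2} = 0.2796…`, `C_{2,3} = 0.0799…`.

**Theorem.** Let `ε > 0`. There is a family of elliptic curves over `F`, given by congruences for `a` and
`b` modulo some `M` and by the condition that `4 a³ + 27 b²` is not divisible by the square of a prime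
which does not divide `M`, which contains a positive proportion of all elliptic curves over `F`, such that

* for every member `E` of the family there are infinitely many prime numbers `l` such that `M(√l)` is
  admissible for `E` for every admissible `M`; so the admissible fields contain infinite towers over
  every admissible field;
* for all large heights `X`, among the members of the family of height at most `X`
  (1) for every `k` the proportion of those for which `Ш(E / M)[2]` is finite and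
  `rank E(M) + dim Ш(E / M)[2] ≤ k [M : F]` for EVERY admissible `M` is `C_{2,0} + … + C_{2,k}` up to `ε`;
  (2) the proportion of those for which `E(M)` is finite of odd order and `Ш(E / M)[2^∞] = 0` for EVERY
  admissible `M` is `C_{2,0}` up to `ε`.

The sum `C_{2,0} + … + C_{2,k}` is larger than `1 - 2^{-k(k+1)/2}`: for `k = 1, 2, 3` it is `0.6291…`,
`0.9087…`, `0.9886…`. The proportions in (1) and (2) cannot be larger: the field `M = F` is admissible, and for it the
law of `rank E(F) + dim Ш(E / F)[2]` is the one of Poonen and Rains, up to `ε`.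

Idea of the proof. Project PR (helper68 and the seats named there, on project PF of the starting library)
gives the law of Poonen and Rains for the orders of the 2-Selmer groups over `F`, up to `ε`, in large
families; the members are twists by products of primes of curves with a discriminant which is nearly
squarefree, and are irreducible modulo the primes over `2`. Here the modulus is chosen with a prime factor
which splits completely in `F`, and the members are irreducible modulo all primes over the modulus; then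
Chebotarev's theorem gives the prime numbers `l` (helper14). If `Sel_2(E / F)` has order `2^k`, then
`Sel_2(E / M)` has order at most `2^{k [M : F]}` for all admissible `M`: its elements which are fixed by
`Gal(M / F)` descend to `F` (helper14, helper68), and a representation of a `2`-group over the field with
two elements whose invariants have dimension `k` has dimension at most `k` times the order of the group.
Since there are no rational points of order two over `M`, the exact sequence
`0 → E(M) / 2 → Sel_2(E / M) → Ш(E / M)[2] → 0` and the theorem of Mordell and Weil give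
`# Sel_2(E / M) = 2^{rank E(M)} # Ш(E / M)[2]`.
-/

set_option autoImplicit false

namespace Pool.Agent.Results.MP_78d38b_nt.UniformRankShaLaw

open NumberField IsDedekindDomain
open Pool.Agent.TH115.GD (Pt act rs IsCoc LocTriv Comp Sep)
open scoped Classical IntermediateField Pointwise

section sha

variable {M : Type} [Field M] [NumberField M]

/-- The maps of the absolute Galois group of `M` to the points of `W` over a separable closure. -/
def Cochain (W : WeierstrassCurve M) : Type := (Sep M ≃ₐ[M] Sep M) → Pt W (Sep M)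

noncomputable instance cochainGroup (W : WeierstrassCurve M) : AddCommGroup (Cochain W) :=
  Pi.addCommGroup

/-- The cochain `f` becomes a coboundary over the completion of `M` at every prime and over `ℝ` for
every embedding of `M` in `ℝ`. -/
structure Locally (W : WeierstrassCurve M) (f : Cochain W) : Prop where
  finite : ∀ v : HeightOneSpectrum (𝓞 M), LocTriv W (Comp (𝓞 M) M v) (Sep (Comp (𝓞 M) M v)) f
  real : ∀ ρ : M →+* ℝ, letI := ρ.toAlgebra; LocTriv W ℝ (Sep ℝ) f

/-- The coboundaries of the points of `W` over a separable closure. -/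
noncomputable def Coboundaries (W : WeierstrassCurve M) : AddSubgroup (Cochain W) where
  carrier := {f | ∃ T : Pt W (Sep M), ∀ σ, f σ = act W (rs M σ) T - T}
  zero_mem' := (Pool.Agent.H68K.PR.CobP W).zero_mem
  add_mem' := (Pool.Agent.H68K.PR.CobP W).add_mem
  neg_mem' := (Pool.Agent.H68K.PR.CobP W).neg_mem

/-- The group of the cochains modulo the coboundaries. It contains `H¹(M, W)`. -/
def Classes (W : WeierstrassCurve M) : Type := Cochain W ⧸ Coboundaries W

noncomputable instance classesGroup (W : WeierstrassCurve M) : AddCommGroup (Classes W) :=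
  QuotientAddGroup.Quotient.addCommGroup (Coboundaries W)

/-- The class of a cochain. -/
noncomputable def cls (W : WeierstrassCurve M) (f : Cochain W) : Classes W := QuotientAddGroup.mk f

/-- The Tate-Shafarevich group of `W`: the classes of the continuous cocycles which are locally
trivial. -/
def Sha (W : WeierstrassCurve M) : Set (Classes W) :=
  {x | ∃ f : Cochain W, IsCoc W f ∧ Locally W f ∧ x = cls W f}

/-- The elements `x` of `Ш` with `2 x = 0`. -/
def ShaTwo (W : WeierstrassCurve M) : Set (Classes W) := {x | x ∈ Sha W ∧ (2 : ℕ) • x = 0}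

end sha

/-- The rank of the group `W(M)` of the points of `W` over `M`. -/
noncomputable def mordellWeilRank {M : Type} [Field M] (W : WeierstrassCurve M) : ℕ :=
  Module.finrank ℤ (Pt W M)

/-- The curve `y² = x³ + a x + b` over the extension `M` of `F`, for integers `a`, `b` of `F`. -/
def curve {F : Type} [Field F] [NumberField F] (M : Type) [Field M] [Algebra F M]
    (p : 𝓞 F × 𝓞 F) : WeierstrassCurve M :=
  ⟨0, 0, 0, algebraMap F M (p.1 : F), algebraMap F M (p.2 : F)⟩

section curves

variable {F : Type} [Field F] [NumberField F]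

/-- `Ш(E / M)[2]` is finite, and `rank E(M) + dim Ш(E / M)[2] ≤ k [M : F]`. -/
structure Bounded (k : ℕ) (M : Type) [Field M] [NumberField M] [Algebra F M] (p : 𝓞 F × 𝓞 F) :
    Prop where
  finite : (ShaTwo (curve M p)).Finite
  bound : 2 ^ mordellWeilRank (curve M p) * (ShaTwo (curve M p)).ncard ≤
    2 ^ (k * Module.finrank F M)

/-- The group of points over `M` is finite of odd order, and `Ш` over `M` has no nonzero element of
2-power order. -/
structure Good (M : Type) [Field M] [NumberField M] [Algebra F M] (p : 𝓞 F × 𝓞 F) : Prop where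
  finite : Finite (Pt (curve M p) M)
  odd : Odd (Nat.card (Pt (curve M p) M))
  sha : ∀ x ∈ Sha (curve M p), ∀ n : ℕ, (2 ^ n : ℕ) • x = 0 → x = 0

end curves

section admissible

variable (F : Type) {M : Type} [Field F] [NumberField F] [Field M] [NumberField M] [Algebra F M]

/-- The decomposition group of the prime `w` of `M` over `F` is trivial. -/
def SplitAt (w : HeightOneSpectrum (𝓞 M)) : Prop :=
  MulAction.stabilizer Gal(M/F) w.asIdeal = ⊥

/-- The inertia group of the prime `w` of `M` over `F` is trivial. -/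
def UnramifiedAt (w : HeightOneSpectrum (𝓞 M)) : Prop :=
  w.asIdeal.inertia Gal(M/F) = ⊥

variable (M)

/-- The extension `M` of `F` is admissible for the curve `y² = x³ + a x + b`, `p = (a, b)`: it is
Galois of 2-power degree; the decomposition groups of the primes of `M` over `2`, and of those over a
prime `𝔭` of `F` with `𝔭² ∣ a`, `𝔭³ ∣ b`, are trivial; every embedding of `F` in `ℝ` extends to `M`;
the cubic has no root modulo the primes of `F` below the primes of `M` with nontrivial inertia group. -/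
structure Admissible (p : 𝓞 F × 𝓞 F) : Prop where
  galois : IsGalois F M
  degree : ∃ n : ℕ, Module.finrank F M = 2 ^ n
  two : ∀ w : HeightOneSpectrum (𝓞 M), (2 : 𝓞 M) ∈ w.asIdeal → SplitAt F w
  split : ∀ w : HeightOneSpectrum (𝓞 M), p.1 ∈ (w.under (𝓞 F)).asIdeal ^ 2 →
    p.2 ∈ (w.under (𝓞 F)).asIdeal ^ 3 → SplitAt F w
  real : ∀ σ : F →+* ℝ, ∃ ρ : M →+* ℝ, ρ.comp (algebraMap F M) = σ
  ramified : ∀ w : HeightOneSpectrum (𝓞 M), ¬ UnramifiedAt F w →
    ∀ z : 𝓞 F, z ^ 3 + p.1 * z + p.2 ∉ (w.under (𝓞 F)).asIdeal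

end admissible

/-- The prime numbers `l` such that `M(√l)` is admissible for every admissible field `M`. -/
def Steps (F : Type) [Field F] [NumberField F] (p : 𝓞 F × 𝓞 F) : Set ℕ := {l : ℕ | l.Prime ∧
  ∀ (M M' : Type) [Field M] [NumberField M] [Field M'] [NumberField M'] [Algebra F M]
    [Algebra M M'] [Algebra F M'] [IsScalarTower F M M'] (x : M'),
    x ^ 2 = (l : M') → M⟮x⟯ = ⊤ → Admissible F M p → Admissible F M' p}

section family

variable (F : Type) [Field F] [NumberField F]

/-- The elliptic curves over `F`: pairs of integers `(a, b)` with `4 a³ + 27 b² ≠ 0` for which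
no nonzero prime ideal `𝔭` satisfies both `𝔭⁴ ∣ a` and `𝔭⁶ ∣ b`. -/
def Curves : Set (𝓞 F × 𝓞 F) :=
  {p | 4 * p.1 ^ 3 + 27 * p.2 ^ 2 ≠ 0 ∧
    ∀ v : HeightOneSpectrum (𝓞 F), ¬ (p.1 ∈ v.asIdeal ^ 4 ∧ p.2 ∈ v.asIdeal ^ 6)}

variable {F}

/-- The height `max_σ max (4 |σ a|³, 27 |σ b|²)`, over the embeddings `σ : F → ℂ`. -/
noncomputable def height (p : 𝓞 F × 𝓞 F) : ℝ :=
  ⨆ σ : F →+* ℂ, max (4 * ‖σ (p.1 : F)‖ ^ 3) (27 * ‖σ (p.2 : F)‖ ^ 2)

variable (F)

/-- The elliptic curves over `F` of height at most `X`. -/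
def UpTo (X : ℝ) : Set (𝓞 F × 𝓞 F) := {p ∈ Curves F | height p ≤ X}

variable {F}

/-- `R` is a union of residue classes modulo `N`. -/
def Periodic (N : ℕ) (R : Set (𝓞 F × 𝓞 F)) : Prop :=
  ∀ p p' : 𝓞 F × 𝓞 F, p ∈ R → (N : 𝓞 F) ∣ p'.1 - p.1 → (N : 𝓞 F) ∣ p'.2 - p.2 → p' ∈ R

/-- The family given by `N` and `R`: the pairs `(a, b)` in `R` with `4 a³ + 27 b² ≠ 0` such that
`4 a³ + 27 b²` is not divisible by the square of a prime which does not divide `N`. -/
def Family (N : ℕ) (R : Set (𝓞 F × 𝓞 F)) : Set (𝓞 F × 𝓞 F) :=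
  {p | p ∈ R ∧ 4 * p.1 ^ 3 + 27 * p.2 ^ 2 ≠ 0 ∧
    ∀ v : HeightOneSpectrum (𝓞 F), (N : 𝓞 F) ∉ v.asIdeal →
      4 * p.1 ^ 3 + 27 * p.2 ^ 2 ∉ v.asIdeal ^ 2}

end family

/-- The constant `C_{2,k}` of Poonen and Rains. -/
noncomputable def poonenRains (k : ℕ) : ℝ :=
  (∏' j : ℕ, (1 + (2 : ℝ)⁻¹ ^ j)⁻¹) * ∏ i ∈ Finset.range k, (2 / ((2 : ℝ) ^ (i + 1) - 1))

section law

variable {F : Type} [Field F] [NumberField F]

/-- The proportion of the members of `G` which are in `A` is `d` up to `ε`. -/
def Share (ε : ℝ) (G A : Set (𝓞 F × 𝓞 F)) (d : ℝ) : Prop :=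
  |((G ∩ A).ncard : ℝ) - d * (G.ncard : ℝ)| ≤ ε * (G.ncard : ℝ)

/-- The law, up to `ε`, over all admissible fields, for the curves in `G`. -/
structure Law (ε : ℝ) (G : Set (𝓞 F × 𝓞 F)) : Prop where
  bounded : ∀ k : ℕ,
    Share ε G {p | ∀ (M : Type) [Field M] [NumberField M] [Algebra F M], Admissible F M p →
      Bounded k M p} (∑ j ∈ Finset.range (k + 1), poonenRains j)
  good : Share ε G {p | ∀ (M : Type) [Field M] [NumberField M] [Algebra F M], Admissible F M p →
      Good M p} (poonenRains 0)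

end law

theorem height_le {F : Type} [Field F] [NumberField F] {X : ℝ} (p : 𝓞 F × 𝓞 F) :
    height p ≤ X ↔ Pool.Agent.H18X.HN X p := by
  have hb : BddAbove (Set.range fun σ : F →+* ℂ =>
      max (4 * ‖σ (p.1 : F)‖ ^ 3) (27 * ‖σ (p.2 : F)‖ ^ 2)) := Set.Finite.bddAbove (Set.finite_range _)
  constructor
  · intro h σ
    have h4 := (le_ciSup hb σ).trans h
    exact ⟨(le_max_left _ _).trans h4, (le_max_right _ _).trans h4⟩
  · intro h
    exact ciSup_le fun σ => max_le (h σ).1 (h σ).2

theorem adm_iff (F M : Type) [Field F] [NumberField F] [Field M] [NumberField M] [Algebra F M]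
    (p : 𝓞 F × 𝓞 F) : Pool.Agent.H14F.Adm F M p ↔ Admissible F M p :=
  ⟨fun h => ⟨h.galois, h.deg, h.two, h.bad, h.real, h.ram⟩,
    fun h => ⟨h.galois, h.degree, h.two, h.split, h.real, h.ramified⟩⟩

section prf

variable {M : Type} [Field M] [NumberField M]

theorem locally_iff (W : WeierstrassCurve M) (f : Cochain W) :
    Locally W f ↔ Pool.Agent.N874.QM.IsLoc W f :=
  ⟨fun h => ⟨h.finite, h.real⟩, fun h => ⟨h.fin, h.real⟩⟩

theorem shaTwo_eq (W : WeierstrassCurve M) : ShaTwo W = Pool.Agent.H68K.PR.Sha2 W := by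
  ext x
  constructor
  · rintro ⟨⟨f, h1, h2, rfl⟩, h3⟩
    refine ⟨f, h1, (locally_iff _ f).1 h2, ?_, rfl⟩
    have h4 : cls W ((2 : ℕ) • f) = 0 := h3
    obtain ⟨T, hT⟩ := (QuotientAddGroup.eq_zero_iff _).1 h4
    exact ⟨T, hT⟩
  · rintro ⟨f, h1, h2, ⟨T, hT⟩, rfl⟩
    refine ⟨⟨f, h1, (locally_iff _ f).2 h2, rfl⟩, ?_⟩
    show cls W ((2 : ℕ) • f) = 0
    exact (QuotientAddGroup.eq_zero_iff _).2 ⟨T, hT⟩

end prf

section fld

variable {F : Type} [Field F] [NumberField F]

theorem order_of_gd {M : Type} [Field M] [NumberField M] [Algebra F M] {n : ℕ} {p : 𝓞 F × 𝓞 F}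
    (h : Pool.Agent.H68K.PR.Gd n (algebraMap (𝓞 F) (𝓞 M) p.1, algebraMap (𝓞 F) (𝓞 M) p.2)) :
    (ShaTwo (curve M p)).Finite ∧
      2 ^ mordellWeilRank (curve M p) * (ShaTwo (curve M p)).ncard = n := by
  obtain ⟨h1, h2⟩ := Pool.Agent.H18X.sha_of_gd h
  rw [shaTwo_eq]
  exact ⟨h1, h2⟩

theorem order_self {n : ℕ} {p : 𝓞 F × 𝓞 F} (h : Pool.Agent.H68K.PR.Gd n p) :
    (ShaTwo (curve F p)).Finite ∧
      2 ^ mordellWeilRank (curve F p) * (ShaTwo (curve F p)).ncard = n := by
  obtain ⟨h1, h2⟩ := Pool.Agent.H18X.sha_of_gd h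
  rw [shaTwo_eq]
  exact ⟨h1, h2⟩

theorem good_of {M : Type} [Field M] [NumberField M] [Algebra F M] {p : 𝓞 F × 𝓞 F}
    (h : Pool.Agent.N783.PF.Good (F := M)
      (algebraMap (𝓞 F) (𝓞 M) p.1, algebraMap (𝓞 F) (𝓞 M) p.2)) : Good M p := by
  refine ⟨h.fin, h.odd, ?_⟩
  rintro x ⟨f, hf, hl, rfl⟩ n hn
  have h8 : cls (curve M p) ((2 ^ n : ℕ) • f) = 0 := hn
  obtain ⟨T, hT⟩ := (QuotientAddGroup.eq_zero_iff _).1 h8
  obtain ⟨Q, hQ⟩ := h.sha f hf ((locally_iff _ f).1 hl) ⟨n, T, hT⟩
  exact (QuotientAddGroup.eq_zero_iff _).2 ⟨Q, hQ⟩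

omit [NumberField F] in
theorem rank_zero {W : WeierstrassCurve F} (h : Finite (Pt W F)) : mordellWeilRank W = 0 := by
  unfold mordellWeilRank
  exact Pool.Agent.H18PR.RL.finrank_zero

theorem order_of_good {p : 𝓞 F × 𝓞 F} (h : Good F p) :
    2 ^ mordellWeilRank (curve F p) * (ShaTwo (curve F p)).ncard = 1 := by
  have h1 : mordellWeilRank (curve F p) = 0 := rank_zero h.finite
  have h2 : ShaTwo (curve F p) = {0} := by
    ext x
    constructor
    · rintro ⟨hx, hx2⟩
      exact h.sha x hx 1 (by rw [pow_one]; exact hx2)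
    · intro hx
      rw [Set.mem_singleton_iff] at hx
      subst hx
      rw [shaTwo_eq]
      exact Pool.Agent.H18PR.RL.zero_mem_sha (curve F p)
  rw [h1, h2, Set.ncard_singleton, pow_zero, mul_one]

theorem isCurve_of {N : ℕ} {R : Set (𝓞 F × 𝓞 F)}
    (hmin : ∀ p ∈ Pool.Agent.H18X.FamM N R, ∀ 𝔭 : Ideal (𝓞 F), 𝔭.IsPrime → 𝔭 ≠ ⊥ →
      ¬ (p.1 ∈ 𝔭 ^ 4 ∧ p.2 ∈ 𝔭 ^ 6)) (X : ℝ) :
    UpTo F X ∩ Family N R =
      {p : 𝓞 F × 𝓞 F | Pool.Agent.H18X.HN X p ∧ p ∈ Pool.Agent.H18X.FamM N R} := by
  ext p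
  constructor
  · rintro ⟨⟨-, h3⟩, h4⟩
    exact ⟨(height_le p).1 h3, h4⟩
  · rintro ⟨h3, h4⟩
    exact ⟨⟨⟨h4.2.1, fun v => hmin p h4 v.asIdeal v.isPrime v.ne_bot⟩, (height_le p).2 h3⟩, h4⟩

end fld

/-- **The law over all admissible extensions.** Let `F` be a number field and `ε > 0`. There are `N`, a
union `R` of residue classes modulo `N` and `c > 0` such that every member of the family of `N` and `R` has
infinitely many prime numbers `l` for which `M(√l)` is admissible for every admissible `M`, and for all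
large `X` at least `c` times as many as all elliptic curves over `F` of height at most `X` are in the family
of `N` and `R`, and among those in the family: (1) for every `k` the proportion with
`rank E(M) + dim Ш(E / M)[2] ≤ k [M : F]` for all admissible `M` is `C_{2,0} + … + C_{2,k}` up to `ε`;
(2) the proportion with `E(M)` finite of odd order and `Ш(E / M)[2^∞] = 0` for all admissible `M` is
`C_{2,0}` up to `ε`. -/
theorem result (F : Type) [Field F] [NumberField F] (ε : ℝ) (hε : 0 < ε) :
    ∃ (N : ℕ) (R : Set (𝓞 F × 𝓞 F)), 0 < N ∧ Periodic N R ∧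
      (∀ p ∈ Family N R, (Steps F p).Infinite) ∧
      ∃ c : ℝ, 0 < c ∧ ∃ X₀ : ℝ, ∀ X : ℝ, X₀ ≤ X →
        (UpTo F X).Finite ∧ 0 < (UpTo F X).ncard ∧
        c * ((UpTo F X).ncard : ℝ) ≤ ((UpTo F X ∩ Family N R).ncard : ℝ) ∧
        Law ε (UpTo F X ∩ Family N R) := by
  obtain ⟨N, R, hN, hR, hmin, hst, c, Y₀, hc, hY₀, h⟩ := Pool.Agent.H18X.law F ε hε
  refine ⟨N, R, hN, hR, fun p hp => ?_, c, hc, Y₀, fun X hX => ?_⟩
  · refine (hst p hp).lam.mono ?_
    rintro l ⟨hl, h⟩
    exact ⟨hl, fun M M' _ _ _ _ _ _ _ _ x hx htop hM =>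
      (adm_iff F M' p).1 (h M M' x hx htop ((adm_iff F M p).2 hM))⟩
  obtain ⟨hfin, h2, h3, h4⟩ := h X hX
  have hsub : UpTo F X ⊆ {p : 𝓞 F × 𝓞 F | Pool.Agent.H18X.HN X p ∧
      4 * p.1 ^ 3 + 27 * p.2 ^ 2 ≠ 0} := fun p hp => ⟨(height_le p).1 hp.2, hp.1.1⟩
  have hfin2 : {p : 𝓞 F × 𝓞 F | Pool.Agent.H18X.HN X p ∧
      4 * p.1 ^ 3 + 27 * p.2 ^ 2 ≠ 0}.Finite := hfin.subset fun p hp => hp.1
  have hfinU : (UpTo F X).Finite := hfin2.subset hsub
  have hcard : ((UpTo F X).ncard : ℝ) ≤ ({p : 𝓞 F × 𝓞 F | Pool.Agent.H18X.HN X p ∧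
      4 * p.1 ^ 3 + 27 * p.2 ^ 2 ≠ 0}.ncard : ℝ) := by
    exact_mod_cast Set.ncard_le_ncard hsub hfin2
  set G : Set (𝓞 F × 𝓞 F) := UpTo F X ∩ Family N R with hG
  have hGe : G = {p : 𝓞 F × 𝓞 F | Pool.Agent.H18X.HN X p ∧ p ∈ Pool.Agent.H18X.FamM N R} :=
    isCurve_of hmin X
  have hGfin : G.Finite := hfinU.subset Set.inter_subset_left
  have hGst : ∀ p ∈ G, Pool.Agent.H18X.StrX p := fun p hp => hst p hp.2
  rw [← hGe] at h3
  have hlaw : ∀ K : Set ℕ, |({x | x ∈ G ∧ ∃ k ∈ K, Pool.Agent.H68K.PR.Gd (2 ^ k) x}.ncard : ℝ) -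
      (∑' k : K, Pool.Agent.H68K.PR.pr2 k) * (G.ncard : ℝ)| ≤ ε * (G.ncard : ℝ) := by
    intro K
    refine le_trans (le_of_eq ?_) ((h4 K).trans (le_of_eq ?_))
    · rw [hGe]
      congr 4
      ext x
      exact and_assoc
    · rw [hGe]
  have hpos : 0 < (UpTo F X).ncard := by
    have e1 : (0 : ℝ) < ({p : 𝓞 F × 𝓞 F | Pool.Agent.H18X.HN X p ∧
      4 * p.1 ^ 3 + 27 * p.2 ^ 2 ≠ 0}.ncard : ℝ) := by exact_mod_cast h2
    have e2 : (0 : ℝ) < (G.ncard : ℝ) := (mul_pos hc e1).trans_le h3
    have e3 : (G.ncard : ℝ) ≤ ((UpTo F X).ncard : ℝ) := by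
      exact_mod_cast Set.ncard_le_ncard Set.inter_subset_left hfinU
    exact_mod_cast e2.trans_le e3
  have hself : ∀ p : 𝓞 F × 𝓞 F, Admissible F F p := fun p =>
    (adm_iff F F p).1 (Pool.Agent.H18X.adm_self p)
  refine ⟨hfinU, hpos, (mul_le_mul_of_nonneg_left hcard hc.le).trans h3, ⟨fun k => ?_, ?_⟩⟩
  · have h5 := Pool.Agent.H68K.PR.sandwich G hGfin
      (fun k p => Pool.Agent.H68K.PR.Gd (2 ^ k) p) ε hlaw {j | j ≤ k}
      {p | ∀ (M : Type) [Field M] [NumberField M] [Algebra F M], Admissible F M p →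
        Bounded k M p} ?_ ?_
    · have e1 : (∑' j : ({j | j ≤ k} : Set ℕ), Pool.Agent.H68K.PR.pr2 j) =
          ∑ j ∈ Finset.range (k + 1), poonenRains j := by
        have e2 : ({j | j ≤ k} : Set ℕ) = ↑(Finset.range (k + 1)) := by
          ext j
          simp
        rw [e2]
        exact Finset.tsum_subtype' (Finset.range (k + 1)) Pool.Agent.H68K.PR.pr2
      rw [e1] at h5
      exact h5
    · rintro p hp ⟨j, hj, h5⟩ M _ _ _ hM
      obtain ⟨n, hn, h6⟩ := Pool.Agent.H68K.PR.admkT F p j (hGst p hp).str h5 M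
        ((adm_iff F M p).2 hM)
      obtain ⟨h7, h8⟩ := order_of_gd h6
      refine ⟨h7, ?_⟩
      rw [h8]
      exact hn.trans (Nat.pow_le_pow_right two_pos (Nat.mul_le_mul_right _ hj))
    · rintro p hp ⟨j, hj, h5⟩ h6
      obtain ⟨-, h7⟩ := h6 F (hself p)
      rw [(order_self h5).2, Module.finrank_self, mul_one] at h7
      exact hj ((Nat.pow_le_pow_iff_right (by norm_num)).1 h7)
  · have h5 := Pool.Agent.H68K.PR.sandwich G hGfin
      (fun k p => Pool.Agent.H68K.PR.Gd (2 ^ k) p) ε hlaw {0}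
      {p | ∀ (M : Type) [Field M] [NumberField M] [Algebra F M], Admissible F M p →
        Good M p} ?_ ?_
    · have e1 : (∑' k : ({0} : Set ℕ), Pool.Agent.H68K.PR.pr2 k) = poonenRains 0 := by
        rw [tsum_singleton]
        rfl
      rw [e1] at h5
      exact h5
    · rintro p hp ⟨j, hj, h5⟩ M _ _ _ hM
      rw [Set.mem_singleton_iff] at hj
      subst hj
      rw [pow_zero] at h5
      exact good_of (Pool.Agent.H14X.admT F p (hGst p hp).str h5 M ((adm_iff F M p).2 hM))
    · rintro p hp ⟨j, hj, h5⟩ h6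
      have h7 := order_of_good (h6 F (hself p))
      rw [(order_self h5).2] at h7
      apply hj
      rw [Set.mem_singleton_iff]
      by_contra h8
      exact absurd h7 (Nat.one_lt_two_pow h8).ne'

end Pool.Agent.Results.MP_78d38b_nt.UniformRankShaLaw
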